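import Pool.Agent.Lib.MP_8535cc_co.H51.Pair

/-!
Counting pairs (x, y) of lattice points with x, y and x + y in a ball, by the exponential moment
method.
-/

namespace Pool.Agent.Lib.MP_8535cc_co

open Finset Real

theorem gz_ge {κ l α : ℝ} (hκ : 0 < κ) (hα : 0 < α) (hl : l ≤ κ ^ 2 / 50)
    (hαl : α ≤ 4 * l) : 6 ≤ κ * gz α := by
  have h1 : (6 / κ) ^ 2 ≤ π / α := by
    have hpi := Real.pi_gt_three
    rw [div_pow, div_le_div_iff₀ (by positivity) hα]
    have h2 : α ≤ 4 * (κ ^ 2 / 50) := by linarith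
    nlinarith [sq_nonneg κ, Real.pi_gt_d2, sq_pos_of_pos hκ]
  have h2 : 6 / κ ≤ gz α := Real.le_sqrt_of_sq_le h1
  rw [div_le_iff₀ hκ] at h2
  linarith

theorem gz_up {κ l α : ℝ} (hκ : 0 < κ) (hα : 0 < α) (hl : l ≤ κ ^ 2 / 50)
    (hαl : α ≤ 4 * l) : 2 + gz α ≤ Real.exp κ * gz α := by
  have h1 := gz_ge hκ hα hl hαl
  have h2 := Real.add_one_le_exp κ
  have h3 := gz_pos hα
  nlinarith

theorem gz_low {κ l α : ℝ} (hκ : 0 < κ) (hκ1 : κ ≤ 1) (hα : 0 < α) (hl : l ≤ κ ^ 2 / 50)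
    (hαl : α ≤ 4 * l) : Real.exp (-κ) * gz α ≤ gz α - 3 := by
  have h1 := gz_ge hκ hα hl hαl
  have h2 : Real.exp (-κ) ≤ 1 - κ / 2 := by
    rw [Real.exp_neg]
    have h3 := Real.add_one_le_exp κ
    rw [inv_eq_one_div, div_le_iff₀ (Real.exp_pos _)]
    nlinarith
  have h3 := gz_pos hα
  nlinarith

/-- The product box. -/
noncomputable def bbox (d K : ℕ) : Finset (Fin d → ℤ × ℤ) := Fintype.piFinset (fun _ => pbox K)

theorem sum_bbox (d K : ℕ) (g : ℤ × ℤ → ℝ) :
    ∑ p ∈ bbox d K, Real.exp (∑ i, g (p i)) = (∑ q ∈ pbox K, Real.exp (g q)) ^ d := by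
  unfold bbox
  simp_rw [Real.exp_sum]
  rw [← Finset.prod_univ_sum (fun _ : Fin d => pbox K) (fun _ q => Real.exp (g q))]
  simp

theorem chernoff (d K : ℕ) (l τ : ℝ) (h : ℤ × ℤ → ℝ) :
    ∑ p ∈ bbox d K with τ < ∑ i, h (p i), Real.exp (∑ i, -l * Q (p i)) ≤
      Real.exp (-τ) * (∑ q ∈ pbox K, Real.exp (-l * Q q + h q)) ^ d := by
  rw [← sum_bbox, Finset.mul_sum]
  calc ∑ p ∈ bbox d K with τ < ∑ i, h (p i), Real.exp (∑ i, -l * Q (p i))
      ≤ ∑ p ∈ bbox d K with τ < ∑ i, h (p i),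
          Real.exp (-τ) * Real.exp (∑ i, (-l * Q (p i) + h (p i))) := by
        apply Finset.sum_le_sum
        intro p hp
        rw [← Real.exp_add]
        apply Real.exp_le_exp.2
        rw [Finset.sum_add_distrib]
        have := (Finset.mem_filter.1 hp).2
        linarith
    _ ≤ _ := Finset.sum_le_sum_of_subset_of_nonneg (Finset.filter_subset _ _)
        (fun _ _ _ => by positivity)

theorem gz_mul {c α : ℝ} (hc : 0 < c) (hα : 0 < α) : gz (c * α) = gz α / Real.sqrt c := by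
  unfold gz
  rw [← Real.sqrt_div (by positivity)]
  congr 1
  field_simp

theorem inv_le_exp {θ : ℝ} (h0 : 0 < θ) (h1 : θ ≤ 1 / 2) : 1 / (1 - θ) ≤ Real.exp (θ + θ ^ 2) := by
  have h2 := Real.quadratic_le_exp_of_nonneg (x := θ + θ ^ 2) (by positivity)
  rw [div_le_iff₀ (by linarith)]
  have h3 : 1 ≤ (1 + (θ + θ ^ 2) + (θ + θ ^ 2) ^ 2 / 2) * (1 - θ) := by
    have e : (1 + (θ + θ ^ 2) + (θ + θ ^ 2) ^ 2 / 2) * (1 - θ) - 1 =
        θ ^ 2 * ((1 - θ) * (1 + θ) ^ 2 / 2 - θ) := by ring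
    have h4 : 0 ≤ (1 - θ) * (1 + θ) ^ 2 / 2 - θ := by
      nlinarith [mul_nonneg h0.le (sub_nonneg.2 h1), sq_nonneg (θ - 1/2), sq_nonneg θ,
        mul_nonneg (sq_nonneg θ) (sub_nonneg.2 h1)]
    have h5 : 0 ≤ θ ^ 2 * ((1 - θ) * (1 + θ) ^ 2 / 2 - θ) := mul_nonneg (sq_nonneg _) h4
    linarith
  have h6 : (1 + (θ + θ ^ 2) + (θ + θ ^ 2) ^ 2 / 2) * (1 - θ) ≤
      Real.exp (θ + θ ^ 2) * (1 - θ) := mul_le_mul_of_nonneg_right h2 (by linarith)
  linarith

theorem exp_le_one_add {ε : ℝ} (h0 : 0 < ε) : Real.exp (ε - ε ^ 2 / 2) ≤ 1 + ε := by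
  have h1 := Real.le_log_one_add_of_nonneg h0.le
  rw [← Real.le_log_iff_exp_le (by linarith)]
  refine le_trans ?_ h1
  rw [le_div_iff₀ (by linarith)]
  nlinarith [pow_pos h0 3]

/-- The key counting statement. -/
theorem count {ε κ l : ℝ} (hε0 : 0 < ε) (hε1 : ε ≤ 1) (hκ : κ = ε ^ 2 / 64) (hl : 0 < l)
    (hl2 : l ≤ κ ^ 2 / 50) {d : ℕ} (hd : 34 ≤ ε ^ 2 * d) :
    ∃ S : Finset (Fin d → ℤ × ℤ),
      (∀ p ∈ S, ∑ i, ((p i).1 : ℝ) ^ 2 ≤ (1 + ε) * d / (3 * l) ∧
        ∑ i, ((p i).2 : ℝ) ^ 2 ≤ (1 + ε) * d / (3 * l) ∧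
        ∑ i, (((p i).1 : ℝ) + (p i).2) ^ 2 ≤ (1 + ε) * d / (3 * l)) ∧
      1 / 2 * (gz (2 * l) * gz (3 * l / 2) * Real.exp (1 - ε - 2 * κ)) ^ d ≤ (S.card : ℝ) := by
  classical
  have hκ0 : 0 < κ := by rw [hκ]; positivity
  have hκ1 : κ ≤ 1 := by
    rw [hκ]
    nlinarith
  have h3 : 3 ≤ gz (2 * l) := by
    have := gz_ge hκ0 (α := 2 * l) (by linarith) hl2 (by linarith)
    have h4 := gz_pos (α := 2 * l) (by linarith)
    have h5 := mul_le_mul_of_nonneg_right hκ1 h4.le
    linarith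
  have hlε : l * ε ≤ l * 1 := mul_le_mul_of_nonneg_left hε1 hl.le
  have hlε0 : 0 < l * ε := mul_pos hl hε0
  obtain ⟨K, hK⟩ := pair_lower hl h3
  have hW := hK K le_rfl
  set W := ∑ p ∈ pbox K, Real.exp (-l * Q p) with hWdef
  set w := gz (2 * l) * gz (3 * l / 2) with hw
  have hg2 := gz_pos (α := 2 * l) (by linarith)
  have hg3 := gz_pos (α := 3 * l / 2) (by linarith)
  have hw0 : 0 < w := mul_pos hg2 hg3
  have hWw : Real.exp (-2 * κ) * w ≤ W := by
    refine le_trans ?_ hW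
    have e1 := gz_low hκ0 hκ1 (α := 2 * l) (by linarith) hl2 (by linarith)
    have e2 := gz_low hκ0 hκ1 (α := 3 * l / 2) (by linarith) hl2 (by linarith)
    calc Real.exp (-2 * κ) * w
        = (Real.exp (-κ) * gz (2 * l)) * (Real.exp (-κ) * gz (3 * l / 2)) := by
          have : Real.exp (-2 * κ) = Real.exp (-κ) * Real.exp (-κ) := by
            rw [← Real.exp_add]
            congr 1
            ring
          rw [this, hw]
          ring
      _ ≤ _ := mul_le_mul e1 e2 (by positivity) (by linarith [mul_pos (Real.exp_pos (-κ)) hg2])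
  -- the upper bound for the tilted sums
  have hup : (2 + gz (2 * l)) * (2 + gz (3 * l / 2 - 3 * l * ε / 4)) ≤
      Real.exp (2 * κ + ε / 4 + ε ^ 2 / 8) * w := by
    have e1 := gz_up hκ0 (α := 2 * l) (by linarith) hl2 (by linarith)
    have hα : 0 < 3 * l / 2 - 3 * l * ε / 4 := by linarith
    have e2 := gz_up hκ0 (α := 3 * l / 2 - 3 * l * ε / 4) hα hl2 (by linarith)
    have e3 : gz (3 * l / 2 - 3 * l * ε / 4) ≤ Real.exp (ε / 4 + ε ^ 2 / 8) * gz (3 * l / 2) := by
      have e4 : 3 * l / 2 - 3 * l * ε / 4 = (1 - ε / 2) * (3 * l / 2) := by ring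
      rw [e4, gz_mul (by linarith) (by linarith), div_eq_mul_one_div, mul_comm]
      apply mul_le_mul_of_nonneg_right _ hg3.le
      have e5 := inv_le_exp (θ := ε / 2) (by linarith) (by linarith)
      have e6 : 1 / Real.sqrt (1 - ε / 2) = Real.sqrt (1 / (1 - ε / 2)) := by
        rw [Real.sqrt_div (by norm_num), Real.sqrt_one]
      rw [e6]
      apply Real.sqrt_le_iff.2
      refine ⟨(Real.exp_pos _).le, e5.trans (le_of_eq ?_)⟩
      rw [← Real.exp_nat_mul]
      congr 1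
      push_cast
      ring
    calc (2 + gz (2 * l)) * (2 + gz (3 * l / 2 - 3 * l * ε / 4))
        ≤ (Real.exp κ * gz (2 * l)) * (Real.exp κ * gz (3 * l / 2 - 3 * l * ε / 4)) :=
          mul_le_mul e1 e2 (by linarith [gz_pos hα]) (by positivity)
      _ ≤ (Real.exp κ * gz (2 * l)) *
          (Real.exp κ * (Real.exp (ε / 4 + ε ^ 2 / 8) * gz (3 * l / 2))) := by
          gcongr
      _ = _ := by
          have : Real.exp (2 * κ + ε / 4 + ε ^ 2 / 8) =
              Real.exp κ * Real.exp κ * Real.exp (ε / 4 + ε ^ 2 / 8) := by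
            rw [← Real.exp_add, ← Real.exp_add]
            congr 1
            ring
          rw [this, hw]
          ring
  set E := Real.exp (2 * κ - ε ^ 2 / 8) * w with hE
  have hE0 : 0 < E := by positivity
  -- first type of bad pairs
  have hbad1 : ∀ F : ℝ, 0 ≤ F → F ≤ (2 + gz (2 * l)) * (2 + gz (3 * l / 2 - 3 * l * ε / 4)) →
      Real.exp (-(ε * (1 + ε) * d / 4)) * F ^ d ≤ E ^ d := by
    intro F hF0 hF
    have e1 : Real.exp (-(ε * (1 + ε) * d / 4)) = Real.exp (-(ε * (1 + ε) / 4)) ^ d := by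
      rw [← Real.exp_nat_mul]
      congr 1
      ring
    rw [e1, ← mul_pow]
    apply pow_le_pow_left₀ (by positivity)
    calc Real.exp (-(ε * (1 + ε) / 4)) * F
        ≤ Real.exp (-(ε * (1 + ε) / 4)) * (Real.exp (2 * κ + ε / 4 + ε ^ 2 / 8) * w) :=
          mul_le_mul_of_nonneg_left (hF.trans hup) (Real.exp_pos _).le
      _ = E := by
          rw [hE, ← mul_assoc, ← Real.exp_add]
          congr 2
          ring
  have hpos : ∀ (g : ℤ × ℤ → ℝ), 0 ≤ ∑ q ∈ pbox K, Real.exp (g q) := fun g =>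
    Finset.sum_nonneg (fun _ _ => (Real.exp_pos _).le)
  have htl : 3 * l * ε / 4 < 3 * l / 2 := by linarith
  have hthr : 3 * l * ε / 4 * ((1 + ε) * d / (3 * l)) = ε * (1 + ε) * d / 4 := by
    field_simp
  -- bad sets
  set P := (1 + ε) * d / (3 * l) with hP
  have hbx : ∑ p ∈ bbox d K with P < ∑ i, ((p i).1 : ℝ) ^ 2,
      Real.exp (∑ i, -l * Q (p i)) ≤ E ^ d := by
    have e1 := chernoff d K l (ε * (1 + ε) * d / 4) (fun q => 3 * l * ε / 4 * (q.1 : ℝ) ^ 2)
    refine le_trans ?_ (e1.trans (hbad1 _ (hpos _) (pair_upper_x hl htl K)))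
    apply Finset.sum_le_sum_of_subset_of_nonneg _ (fun _ _ _ => (Real.exp_pos _).le)
    intro p hp
    rw [Finset.mem_filter] at hp ⊢
    refine ⟨hp.1, ?_⟩
    rw [← Finset.mul_sum, ← hthr]
    exact mul_lt_mul_of_pos_left hp.2 (by positivity)
  have hby : ∑ p ∈ bbox d K with P < ∑ i, ((p i).2 : ℝ) ^ 2,
      Real.exp (∑ i, -l * Q (p i)) ≤ E ^ d := by
    have e1 := chernoff d K l (ε * (1 + ε) * d / 4) (fun q => 3 * l * ε / 4 * (q.2 : ℝ) ^ 2)
    refine le_trans ?_ (e1.trans (hbad1 _ (hpos _) (pair_upper_y hl htl K)))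
    apply Finset.sum_le_sum_of_subset_of_nonneg _ (fun _ _ _ => (Real.exp_pos _).le)
    intro p hp
    rw [Finset.mem_filter] at hp ⊢
    refine ⟨hp.1, ?_⟩
    rw [← Finset.mul_sum, ← hthr]
    exact mul_lt_mul_of_pos_left hp.2 (by positivity)
  have hbz : ∑ p ∈ bbox d K with P < ∑ i, (((p i).1 : ℝ) + (p i).2) ^ 2,
      Real.exp (∑ i, -l * Q (p i)) ≤ E ^ d := by
    have e1 := chernoff d K l (ε * (1 + ε) * d / 4)
      (fun q => 3 * l * ε / 4 * ((q.1 : ℝ) + q.2) ^ 2)
    refine le_trans ?_ (e1.trans (hbad1 _ (hpos _) (pair_upper_z hl htl K)))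
    apply Finset.sum_le_sum_of_subset_of_nonneg _ (fun _ _ _ => (Real.exp_pos _).le)
    intro p hp
    rw [Finset.mem_filter] at hp ⊢
    refine ⟨hp.1, ?_⟩
    rw [← Finset.mul_sum, ← hthr]
    exact mul_lt_mul_of_pos_left hp.2 (by positivity)
  have hbq : ∑ p ∈ bbox d K with ∑ i, Q (p i) < (1 - ε) * d / l,
      Real.exp (∑ i, -l * Q (p i)) ≤ E ^ d := by
    have e1 := chernoff d K l (-(ε * (1 - ε) * d)) (fun q => -(l * ε) * Q q)
    have e2 : (∑ q ∈ pbox K, Real.exp (-l * Q q + -(l * ε) * Q q)) ≤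
        Real.exp (2 * κ) * (w / (1 + ε)) := by
      have e3 := pair_upper_x (l := (1 + ε) * l) (t := 0) (by positivity) (by positivity) K
      have e4 := gz_up hκ0 (α := 2 * ((1 + ε) * l)) (by positivity) hl2 (by linarith)
      have e5 := gz_up hκ0 (α := 3 * ((1 + ε) * l) / 2 - 0) (by ring_nf; positivity) hl2
        (by linarith)
      calc (∑ q ∈ pbox K, Real.exp (-l * Q q + -(l * ε) * Q q))
          = ∑ q ∈ pbox K, Real.exp (-((1 + ε) * l) * Q q + 0 * (q.1 : ℝ) ^ 2) := by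
            apply Finset.sum_congr rfl
            intro q _
            congr 1
            ring
        _ ≤ _ := e3
        _ ≤ (Real.exp κ * gz (2 * ((1 + ε) * l))) *
            (Real.exp κ * gz (3 * ((1 + ε) * l) / 2 - 0)) := by
            apply mul_le_mul e4 e5
            · have := gz_pos (α := 3 * ((1 + ε) * l) / 2 - 0) (by ring_nf; positivity)
              linarith
            · have := gz_pos (α := 2 * ((1 + ε) * l)) (by positivity)
              positivity
        _ = _ := by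
            have e6 : gz (2 * ((1 + ε) * l)) = gz (2 * l) / Real.sqrt (1 + ε) := by
              rw [← gz_mul (by linarith) (by linarith)]
              congr 1
              ring
            have e7 : gz (3 * ((1 + ε) * l) / 2 - 0) = gz (3 * l / 2) / Real.sqrt (1 + ε) := by
              rw [← gz_mul (by linarith) (by linarith)]
              congr 1
              ring
            have e8 : Real.exp (2 * κ) = Real.exp κ * Real.exp κ := by
              rw [← Real.exp_add]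
              congr 1
              ring
            have e9 : (1 + ε) = Real.sqrt (1 + ε) * Real.sqrt (1 + ε) :=
              (Real.mul_self_sqrt (by linarith)).symm
            rw [e6, e7, e8, hw]
            conv_rhs => rw [e9]
            field_simp
    have e10 : Real.exp (-(-(ε * (1 - ε) * d))) *
        (∑ q ∈ pbox K, Real.exp (-l * Q q + -(l * ε) * Q q)) ^ d ≤ E ^ d := by
      have e11 : Real.exp (-(-(ε * (1 - ε) * d))) = Real.exp (ε * (1 - ε)) ^ d := by
        rw [← Real.exp_nat_mul]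
        congr 1
        ring
      rw [e11, ← mul_pow]
      apply pow_le_pow_left₀ (mul_nonneg (Real.exp_pos _).le (hpos _))
      have e12 := exp_le_one_add hε0
      calc Real.exp (ε * (1 - ε)) * (∑ q ∈ pbox K, Real.exp (-l * Q q + -(l * ε) * Q q))
          ≤ Real.exp (ε * (1 - ε)) * (Real.exp (2 * κ) * (w / (1 + ε))) :=
            mul_le_mul_of_nonneg_left e2 (Real.exp_pos _).le
        _ = (Real.exp (ε - ε ^ 2 / 2) / (1 + ε)) * (Real.exp (2 * κ - ε ^ 2 / 2) * w) := by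
            have e13 : Real.exp (ε * (1 - ε)) * Real.exp (2 * κ) =
                Real.exp (ε - ε ^ 2 / 2) * Real.exp (2 * κ - ε ^ 2 / 2) := by
              rw [← Real.exp_add, ← Real.exp_add]
              congr 1
              ring
            calc Real.exp (ε * (1 - ε)) * (Real.exp (2 * κ) * (w / (1 + ε)))
                = (Real.exp (ε * (1 - ε)) * Real.exp (2 * κ)) * (w / (1 + ε)) := by ring
              _ = _ := by rw [e13]; ring
        _ ≤ 1 * (Real.exp (2 * κ - ε ^ 2 / 2) * w) := by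
            apply mul_le_mul_of_nonneg_right _ (by positivity)
            rw [div_le_one (by linarith)]
            exact e12
        _ ≤ E := by
            rw [one_mul, hE]
            apply mul_le_mul_of_nonneg_right _ hw0.le
            apply Real.exp_le_exp.2
            have := sq_nonneg ε
            linarith
    refine le_trans ?_ (e1.trans e10)
    apply Finset.sum_le_sum_of_subset_of_nonneg _ (fun _ _ _ => (Real.exp_pos _).le)
    intro p hp
    rw [Finset.mem_filter] at hp ⊢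
    refine ⟨hp.1, ?_⟩
    rw [← Finset.mul_sum]
    have e14 : -(ε * (1 - ε) * d) = -(l * ε) * ((1 - ε) * d / l) := by
      field_simp
    rw [e14]
    have e15 := mul_lt_mul_of_pos_left hp.2 (show 0 < l * ε by positivity)
    linarith
  -- the good set
  let S := (bbox d K).filter (fun p => (∑ i, ((p i).1 : ℝ) ^ 2 ≤ P ∧
    ∑ i, ((p i).2 : ℝ) ^ 2 ≤ P ∧ ∑ i, (((p i).1 : ℝ) + (p i).2) ^ 2 ≤ P) ∧
    (1 - ε) * d / l ≤ ∑ i, Q (p i))
  refine ⟨S, fun p hp => (Finset.mem_filter.1 hp).2.1, ?_⟩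
  have htotal : ∑ p ∈ bbox d K, Real.exp (∑ i, -l * Q (p i)) = W ^ d := by
    rw [hWdef, ← sum_bbox]
  have hcover : ∑ p ∈ bbox d K, Real.exp (∑ i, -l * Q (p i)) ≤
      ∑ p ∈ S, Real.exp (∑ i, -l * Q (p i)) + 4 * E ^ d := by
    have e1 : bbox d K ⊆ S ∪ ((bbox d K).filter (fun p => P < ∑ i, ((p i).1 : ℝ) ^ 2) ∪
        ((bbox d K).filter (fun p => P < ∑ i, ((p i).2 : ℝ) ^ 2) ∪
        ((bbox d K).filter (fun p => P < ∑ i, (((p i).1 : ℝ) + (p i).2) ^ 2) ∪
        (bbox d K).filter (fun p => ∑ i, Q (p i) < (1 - ε) * d / l)))) := by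
      intro p hp
      simp only [S, Finset.mem_union, Finset.mem_filter, hp, true_and]
      by_contra hcon
      push Not at hcon
      obtain ⟨c1, c2, c3, c4, c5⟩ := hcon
      exact absurd c5 (not_le.2 (c1 ⟨c2, c3, c4⟩))
    have hnn : ∀ p : Fin d → ℤ × ℤ, 0 ≤ Real.exp (∑ i, -l * Q (p i)) := fun p =>
      (Real.exp_pos _).le
    have e2 : ∀ A B : Finset (Fin d → ℤ × ℤ),
        ∑ p ∈ A ∪ B, Real.exp (∑ i, -l * Q (p i)) ≤
        ∑ p ∈ A, Real.exp (∑ i, -l * Q (p i)) + ∑ p ∈ B, Real.exp (∑ i, -l * Q (p i)) := by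
      intro A B
      rw [← Finset.sum_union_inter]
      have : 0 ≤ ∑ p ∈ A ∩ B, Real.exp (∑ i, -l * Q (p i)) :=
        Finset.sum_nonneg (fun p _ => hnn p)
      linarith
    refine (Finset.sum_le_sum_of_subset_of_nonneg e1 (fun p _ _ => hnn p)).trans ?_
    refine (e2 _ _).trans ?_
    have e3 := e2 ((bbox d K).filter (fun p => P < ∑ i, ((p i).1 : ℝ) ^ 2))
        ((bbox d K).filter (fun p => P < ∑ i, ((p i).2 : ℝ) ^ 2) ∪
        ((bbox d K).filter (fun p => P < ∑ i, (((p i).1 : ℝ) + (p i).2) ^ 2) ∪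
        (bbox d K).filter (fun p => ∑ i, Q (p i) < (1 - ε) * d / l)))
    have e4 := e2 ((bbox d K).filter (fun p => P < ∑ i, ((p i).2 : ℝ) ^ 2))
        ((bbox d K).filter (fun p => P < ∑ i, (((p i).1 : ℝ) + (p i).2) ^ 2) ∪
        (bbox d K).filter (fun p => ∑ i, Q (p i) < (1 - ε) * d / l))
    have e5 := e2 ((bbox d K).filter (fun p => P < ∑ i, (((p i).1 : ℝ) + (p i).2) ^ 2))
        ((bbox d K).filter (fun p => ∑ i, Q (p i) < (1 - ε) * d / l))
    linarith
  have hEW : 4 * E ^ d ≤ 1 / 2 * W ^ d := by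
    have e1 : E = Real.exp (-(ε ^ 2 / 16)) * (Real.exp (-2 * κ) * w) := by
      rw [hE, ← mul_assoc (Real.exp (-(ε ^ 2 / 16))), ← Real.exp_add]
      congr 2
      rw [hκ]
      ring
    have e2 : E ^ d ≤ Real.exp (-(ε ^ 2 / 16)) ^ d * W ^ d := by
      rw [e1, mul_pow]
      apply mul_le_mul_of_nonneg_left _ (by positivity)
      exact pow_le_pow_left₀ (by positivity) hWw d
    have e3 : Real.exp (-(ε ^ 2 / 16)) ^ d ≤ 1 / 8 := by
      rw [← Real.exp_nat_mul]
      have e4 : Real.exp ((d : ℝ) * -(ε ^ 2 / 16)) ≤ Real.exp (-(34 / 16)) := by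
        apply Real.exp_le_exp.2
        have e40 : (d : ℝ) * -(ε ^ 2 / 16) = -(ε ^ 2 * d) / 16 := by ring
        rw [e40]
        linarith
      refine e4.trans ?_
      have e5 : (8 : ℝ) ≤ Real.exp (34 / 16) := by
        have e6 : Real.exp 1 ^ 2 ≤ Real.exp (34 / 16) := by
          rw [← Real.exp_nat_mul]
          apply Real.exp_le_exp.2
          norm_num
        have e7 : Real.exp (34 / 16) = Real.exp 1 ^ 2 * Real.exp (1 / 8) := by
          rw [← Real.exp_nat_mul, ← Real.exp_add]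
          congr 1
          norm_num
        have e8 := Real.exp_one_gt_d9
        have e9 : (9 / 8 : ℝ) ≤ Real.exp (1 / 8) := by
          have := Real.add_one_le_exp (1 / 8 : ℝ)
          linarith
        rw [e7]
        have e10 : (2.7 : ℝ) ^ 2 ≤ Real.exp 1 ^ 2 :=
          pow_le_pow_left₀ (by norm_num) (by linarith) 2
        calc (8 : ℝ) ≤ 2.7 ^ 2 * (9 / 8) := by norm_num
          _ ≤ Real.exp 1 ^ 2 * Real.exp (1 / 8) := mul_le_mul e10 e9 (by norm_num) (by positivity)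
      rw [Real.exp_neg, one_div]
      exact inv_anti₀ (by norm_num) e5
    have e4 : 0 ≤ W ^ d := by
      have : 0 ≤ W := hpos _
      positivity
    have e5 := mul_le_mul_of_nonneg_right e3 e4
    linarith
  have hSw : 1 / 2 * W ^ d ≤ ∑ p ∈ S, Real.exp (∑ i, -l * Q (p i)) := by
    rw [htotal] at hcover
    linarith
  have hSle : ∑ p ∈ S, Real.exp (∑ i, -l * Q (p i)) ≤ S.card * Real.exp (-((1 - ε) * d)) := by
    rw [← nsmul_eq_mul]
    apply Finset.sum_le_card_nsmul
    intro p hp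
    apply Real.exp_le_exp.2
    have e1 := (Finset.mem_filter.1 hp).2.2
    rw [← Finset.mul_sum]
    rw [div_le_iff₀ hl] at e1
    linarith
  have hfin : 1 / 2 * (Real.exp (-2 * κ) * w) ^ d ≤ S.card * Real.exp (-((1 - ε) * d)) := by
    refine le_trans ?_ (hSw.trans hSle)
    have := pow_le_pow_left₀ (by positivity) hWw d
    linarith
  have e20 : (w * Real.exp (1 - ε - 2 * κ)) ^ d =
      (Real.exp (-2 * κ) * w) ^ d * Real.exp ((1 - ε) * d) := by
    have : Real.exp ((1 - ε) * d) = Real.exp (1 - ε) ^ d := by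
      rw [← Real.exp_nat_mul]
      congr 1
      ring
    rw [this, ← mul_pow]
    congr 1
    have : Real.exp (1 - ε - 2 * κ) = Real.exp (-2 * κ) * Real.exp (1 - ε) := by
      rw [← Real.exp_add]
      congr 1
      ring
    rw [this]
    ring
  rw [e20]
  have e21 : Real.exp (-((1 - ε) * d)) * Real.exp ((1 - ε) * d) = 1 := by
    rw [← Real.exp_add]
    simp
  have e22 := mul_le_mul_of_nonneg_right hfin (Real.exp_pos ((1 - ε) * d)).le
  have e23 : (S.card : ℝ) * Real.exp (-((1 - ε) * d)) * Real.exp ((1 - ε) * d) = S.card := by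
    rw [mul_assoc, e21, mul_one]
  linarith

end Pool.Agent.Lib.MP_8535cc_co
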