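import Pool.Agent.Lib.MP_8535cc_co.H51.Step

/-!
The asymptotic form.
-/

namespace Pool.Agent.Lib.MP_8535cc_co

open Finset Real

theorem sqrt_log_tendsto :
    Filter.Tendsto (fun n : ℕ => Real.sqrt (Real.log n)) Filter.atTop Filter.atTop :=
  Real.tendsto_sqrt_atTop.comp (Real.tendsto_log_atTop.comp tendsto_natCast_atTop_atTop)

theorem main {ε : ℝ} (hε : 0 < ε) :
    ∃ n₀ : ℕ, ∀ n : ℕ, n₀ ≤ n → ∃ G : SimpleGraph (Fin n), UniqueTriangle G ∧
      (n : ℝ) ^ 2 * Real.exp (-((2 * Real.sqrt (Real.log (4 / 3)) + ε) *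
        Real.sqrt (Real.log n))) ≤ G.edgeSet.ncard := by
  have hlog43 : 0 < Real.log (4 / 3) := Real.log_pos (by norm_num)
  set L := Real.log (4 / 3) / 2 with hL
  have hL0 : 0 < L := by positivity
  set c := Real.sqrt (2 / L) with hc
  have hc0 : 0 < c := Real.sqrt_pos.2 (by positivity)
  have hc2 : c ^ 2 * L = 2 := by
    rw [hc, Real.sq_sqrt (by positivity)]
    field_simp
  have hLc : L * c = Real.sqrt (Real.log (4 / 3)) := by
    symm
    rw [Real.sqrt_eq_iff_mul_self_eq hlog43.le (by positivity)]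
    have : Real.log (4 / 3) = 2 * L := by rw [hL]; ring
    rw [this]
    have e : L * c * (L * c) = L * (c ^ 2 * L) := by ring
    rw [e, hc2]
    ring
  have h2c : 2 / c = L * c := by
    rw [div_eq_iff hc0.ne']
    have e : L * c * c = c ^ 2 * L := by ring
    rw [e, hc2]
  set δ := min 1 (ε / (6 * c)) with hδ
  have hδ0 : 0 < δ := lt_min one_pos (by positivity)
  have hδ1 : δ ≤ 1 := min_le_left _ _
  have hδε : 3 * δ * c ≤ ε / 2 := by
    have : δ ≤ ε / (6 * c) := min_le_right _ _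
    rw [le_div_iff₀ (by positivity)] at this
    linarith
  set κ := δ ^ 2 / 64 with hκ
  have hκ0 : 0 < κ := by positivity
  set M := 100 * (π * (1 + δ) * Real.exp (1 + 2 * κ)) / (3 * κ ^ 2) with hM
  have hpi := Real.pi_pos
  have hM0 : 0 < M := by positivity
  set A := 4 * c / ε with hA
  have hA0 : 0 < A := by positivity
  set C₀ := (L + 3 * δ) + Real.log 18 + 1 / A + Real.log A with hC₀
  -- the thresholds for X
  have hev : ∀ᶠ n : ℕ in Filter.atTop,
      (1 ≤ Real.sqrt (Real.log n) ∧ 34 / (δ ^ 2 * c) ≤ Real.sqrt (Real.log n)) ∧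
      ((|Real.log M| * (c + 1) + 4 ≤ Real.sqrt (Real.log n)) ∧
      4 * C₀ / ε ≤ Real.sqrt (Real.log n)) ∧ 1 ≤ n := by
    refine ((sqrt_log_tendsto.eventually_ge_atTop _).and
      (sqrt_log_tendsto.eventually_ge_atTop _)).and
      (((sqrt_log_tendsto.eventually_ge_atTop _).and
      (sqrt_log_tendsto.eventually_ge_atTop _)).and (Filter.eventually_ge_atTop 1))
  obtain ⟨n₀, hn₀⟩ := Filter.eventually_atTop.1 hev
  refine ⟨n₀, fun n hn => ?_⟩
  obtain ⟨⟨hX1, hX2⟩, ⟨hX3, hX4⟩, hn1⟩ := hn₀ n hn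
  set X := Real.sqrt (Real.log n) with hX
  have hnr : (0 : ℝ) < n := by exact_mod_cast hn1
  have hlogn : Real.log n = X ^ 2 := by
    rw [hX, Real.sq_sqrt]
    exact Real.log_nonneg (by exact_mod_cast hn1)
  have hX0 : 0 < X := by linarith
  set d := ⌈c * X⌉₊ with hd
  have hdlow : c * X ≤ d := Nat.le_ceil _
  have hdup : (d : ℝ) < c * X + 1 := Nat.ceil_lt_add_one (by positivity)
  have hd0 : (0 : ℝ) < d := lt_of_lt_of_le (by positivity) hdlow
  have hdne : d ≠ 0 := by
    intro h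
    rw [h] at hd0
    norm_num at hd0
  have hd34 : 34 ≤ δ ^ 2 * d := by
    rw [div_le_iff₀ (by positivity)] at hX2
    have e1 : δ ^ 2 * (c * X) ≤ δ ^ 2 * d := mul_le_mul_of_nonneg_left hdlow (by positivity)
    have e2 : X * (δ ^ 2 * c) = δ ^ 2 * (c * X) := by ring
    linarith
  set y := Real.exp ((X ^ 2 - Real.log 3) / d) with hy
  have hy0 : 0 < y := Real.exp_pos _
  have hyn : y ^ d = n / 3 := by
    rw [hy, ← Real.exp_nat_mul, mul_div_cancel₀ _ hd0.ne', Real.exp_sub, ← hlogn,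
      Real.exp_log hnr, Real.exp_log (by norm_num)]
  have hlog3 : Real.log 3 ≤ 2 := by
    have := Real.log_le_sub_one_of_pos (show (0 : ℝ) < 3 by norm_num)
    linarith
  have hlog3' : 0 ≤ Real.log 3 := Real.log_nonneg (by norm_num)
  have hyM : M ≤ y ^ 2 := by
    have h1 : y ^ 2 = Real.exp (2 * ((X ^ 2 - Real.log 3) / d)) := by
      rw [hy, ← Real.exp_nat_mul]
      push_cast
      rfl
    rw [h1, ← Real.log_le_iff_le_exp hM0]
    refine (le_abs_self _).trans ?_
    have h2 : |Real.log M| * d ≤ 2 * (X ^ 2 - Real.log 3) := by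
      have h3 : |Real.log M| * d ≤ |Real.log M| * ((c + 1) * X) := by
        apply mul_le_mul_of_nonneg_left _ (abs_nonneg _)
        have e : (c + 1) * X = c * X + X := by ring
        linarith
      have h4 : |Real.log M| * ((c + 1) * X) ≤ (X - 4) * X := by
        have := mul_le_mul_of_nonneg_right
          (show |Real.log M| * (c + 1) ≤ X - 4 by linarith) hX0.le
        linarith
      have h5 : (X - 4) * X = X ^ 2 - 4 * X := by ring
      have h6 : X ≤ X ^ 2 := by
        calc X = X * 1 := by ring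
          _ ≤ X * X := mul_le_mul_of_nonneg_left hX1 hX0.le
          _ = X ^ 2 := by ring
      linarith
    rw [← mul_div_assoc, le_div_iff₀ hd0]
    exact h2
  have hy2 : 100 * (π * (1 + δ) * Real.exp (1 + 2 * κ)) ≤ 3 * κ ^ 2 * y ^ 2 := by
    rw [hM, div_le_iff₀ (by positivity)] at hyM
    linarith
  obtain ⟨G, hG, hGe⟩ := step hδ0 hδ1 hκ hd34 hy0 hyn hy2
  refine ⟨G, hG, ?_⟩
  -- the final computation
  have hdy0 : 0 < (d : ℝ) * y ^ 2 := by positivity
  have hlogd : Real.log d ≤ (c * X + 1) / A + Real.log A := by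
    have h1 : Real.log d ≤ Real.log (c * X + 1) := Real.log_le_log hd0 hdup.le
    have h2 := Real.log_le_sub_one_of_pos (show 0 < (c * X + 1) / A by positivity)
    rw [Real.log_div (by positivity) hA0.ne'] at h2
    linarith
  have hy2up : 2 * ((X ^ 2 - Real.log 3) / d) ≤ 2 / c * X := by
    have h1 : (X ^ 2 - Real.log 3) / d ≤ X / c := by
      rw [div_le_div_iff₀ hd0 hc0]
      have e1 := mul_le_mul_of_nonneg_left hdlow hX0.le
      have e2 : (X ^ 2 - Real.log 3) * c = X * (c * X) - c * Real.log 3 := by ring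
      have e3 : 0 ≤ c * Real.log 3 := mul_nonneg hc0.le hlog3'
      linarith
    calc 2 * ((X ^ 2 - Real.log 3) / d) ≤ 2 * (X / c) := by linarith
      _ = 2 / c * X := by ring
  have hexp : (L + 3 * δ) * d + Real.log 18 + Real.log d + 2 * ((X ^ 2 - Real.log 3) / d) ≤
      (2 * Real.sqrt (Real.log (4 / 3)) + ε) * X := by
    have h1 : (L + 3 * δ) * d ≤ (L + 3 * δ) * (c * X + 1) :=
      mul_le_mul_of_nonneg_left hdup.le (by positivity)
    have h2 : (c * X + 1) / A = ε / 4 * X + 1 / A := by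
      rw [hA]
      field_simp
    have h3 : C₀ ≤ ε / 4 * X := by
      rw [div_le_iff₀ hε] at hX4
      linarith
    have h4 : 3 * δ * c * X ≤ ε / 2 * X := mul_le_mul_of_nonneg_right hδε hX0.le
    rw [h2c, hLc] at hy2up
    have h5 : L * c * X = Real.sqrt (Real.log (4 / 3)) * X := by rw [hLc]
    rw [h2] at hlogd
    rw [hC₀] at h3
    have h6 : (L + 3 * δ) * (c * X + 1) = L * c * X + 3 * δ * c * X + (L + 3 * δ) := by ring
    have h7 : (2 * Real.sqrt (Real.log (4 / 3)) + ε) * X =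
        2 * (Real.sqrt (Real.log (4 / 3)) * X) + ε * X := by ring
    have h8 : ε / 2 * X + ε / 4 * X + ε / 4 * X = ε * X := by ring
    linarith
  have hfin : (n : ℝ) ^ 2 * Real.exp (-((2 * Real.sqrt (Real.log (4 / 3)) + ε) * X)) *
      (d * y ^ 2) ≤ (n : ℝ) ^ 2 / 18 * Real.exp (-(L + 3 * δ) * d) := by
    have e1 : (d : ℝ) * y ^ 2 = Real.exp (Real.log d + 2 * ((X ^ 2 - Real.log 3) / d)) := by
      rw [Real.exp_add, Real.exp_log hd0, hy, ← Real.exp_nat_mul]
      push_cast
      rfl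
    have e2 : (n : ℝ) ^ 2 / 18 * Real.exp (-(L + 3 * δ) * d) =
        (n : ℝ) ^ 2 * Real.exp (-(Real.log 18) + -(L + 3 * δ) * d) := by
      rw [Real.exp_add, Real.exp_neg, Real.exp_log (by norm_num)]
      ring
    rw [e1, e2, mul_assoc, ← Real.exp_add]
    apply mul_le_mul_of_nonneg_left _ (by positivity)
    apply Real.exp_le_exp.2
    linarith
  have h10 := hfin.trans hGe
  have h11 : (n : ℝ) ^ 2 * Real.exp (-((2 * Real.sqrt (Real.log (4 / 3)) + ε) * X)) *
      (d * y ^ 2) ≤ G.edgeSet.ncard * (d * y ^ 2) := by linarith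
  exact le_of_mul_le_mul_right h11 hdy0

end Pool.Agent.Lib.MP_8535cc_co
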