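import Mathlib

/-!
The graph on three copies of the lattice ball.
-/

namespace Pool.Agent.Lib.MP_8535cc_co

open Finset

variable {d : ℕ}

/-- The squared Euclidean norm of an integer vector. -/
def sq (x : Fin d → ℤ) : ℤ := ∑ i, x i ^ 2

theorem sq_nonneg' (x : Fin d → ℤ) : 0 ≤ sq x := Finset.sum_nonneg (fun i _ => sq_nonneg (x i))

theorem sq_eq_zero {x : Fin d → ℤ} (h : sq x = 0) : x = 0 := by
  funext i
  have := (Finset.sum_eq_zero_iff_of_nonneg (fun i _ => sq_nonneg (x i))).1 h i (Finset.mem_univ i)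
  simpa using this

theorem sq_neg' (x : Fin d → ℤ) : sq (-x) = sq x := by
  simp [sq]

theorem sq_sub_comm (x y : Fin d → ℤ) : sq (x - y) = sq (y - x) := by
  rw [← sq_neg', neg_sub]

theorem sq_identity (x y z : Fin d → ℤ) :
    sq (x + x + z) + sq (y + y + z) - 2 * sq (x - y) = 2 * sq (x + y + z) := by
  simp only [sq, Pi.add_apply, Pi.sub_apply]
  rw [Finset.mul_sum, Finset.mul_sum, ← Finset.sum_add_distrib, ← Finset.sum_sub_distrib]
  apply Finset.sum_congr rfl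
  intro i _
  ring

theorem sq_parallelogram (x y : Fin d → ℤ) :
    sq (x - y) = 2 * sq x + 2 * sq y - sq (x + y) := by
  simp only [sq, Pi.add_apply, Pi.sub_apply]
  rw [Finset.mul_sum, Finset.mul_sum, ← Finset.sum_add_distrib, ← Finset.sum_sub_distrib]
  apply Finset.sum_congr rfl
  intro i _
  ring

/-- The lattice points of a ball. -/
def ball (d : ℕ) (P : ℤ) : Set (Fin d → ℤ) := {x | sq x ≤ P}

theorem ball_finite (d : ℕ) (P : ℤ) : (ball d P).Finite := by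
  apply (Set.finite_Icc (fun _ : Fin d => -P) (fun _ : Fin d => P)).subset
  intro x hx
  have h : ∀ i, |x i| ≤ P := by
    intro i
    have h1 : x i ^ 2 ≤ sq x :=
      Finset.single_le_sum (f := fun i => x i ^ 2) (fun i _ => sq_nonneg (x i))
        (Finset.mem_univ i)
    have h2 : x i ^ 2 ≤ P := h1.trans hx
    have h3 : |x i| ≤ x i ^ 2 := by
      rw [← sq_abs]
      have := abs_nonneg (x i)
      rcases eq_or_lt_of_le this with h0 | h0
      · rw [← h0]; norm_num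
      · nlinarith
    exact h3.trans h2
  exact ⟨fun i => (abs_le.1 (h i)).1, fun i => (abs_le.1 (h i)).2⟩

/-- Every edge of the graph lies in exactly one triangle. -/
def UniqueTriangle {W : Type*} (G : SimpleGraph W) : Prop :=
  ∀ u v, G.Adj u v → ∃! w, G.Adj u w ∧ G.Adj v w

/-- The oriented relation: lower part to higher part. -/
def Rel (P r : ℤ) (u v : Fin 3 × (Fin d → ℤ)) : Prop :=
  (u.1 = 0 ∧ v.1 = 1 ∧ sq (u.2 + v.2) ≤ P ∧ sq (u.2 - v.2) = r) ∨
  (u.1 = 0 ∧ v.1 = 2 ∧ sq (u.2 + v.2) ≤ P ∧ sq (u.2 + u.2 + v.2) = r) ∨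
  (u.1 = 1 ∧ v.1 = 2 ∧ sq (u.2 + v.2) ≤ P ∧ sq (u.2 + u.2 + v.2) = r)

theorem Rel.lt {P r : ℤ} {u v : Fin 3 × (Fin d → ℤ)} (h : Rel P r u v) : u.1 < v.1 := by
  rcases h with ⟨h1, h2, _⟩ | ⟨h1, h2, _⟩ | ⟨h1, h2, _⟩ <;> rw [h1, h2] <;> decide

/-- The graph on three copies of the ball. -/
def bg (d : ℕ) (P r : ℤ) : SimpleGraph (Fin 3 × ball d P) where
  Adj u v := Rel P r (u.1, (u.2 : Fin d → ℤ)) (v.1, (v.2 : Fin d → ℤ)) ∨
    Rel P r (v.1, (v.2 : Fin d → ℤ)) (u.1, (u.2 : Fin d → ℤ))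
  symm := ⟨fun _ _ h => h.symm⟩
  loopless := ⟨fun u h => by
    rcases h with h | h
    · exact lt_irrefl _ h.lt
    · exact lt_irrefl _ h.lt⟩

theorem bg_adj {P r : ℤ} (u v : Fin 3 × ball d P) : (bg d P r).Adj u v ↔
    (Rel P r (u.1, (u.2 : Fin d → ℤ)) (v.1, (v.2 : Fin d → ℤ)) ∨
    Rel P r (v.1, (v.2 : Fin d → ℤ)) (u.1, (u.2 : Fin d → ℤ))) := Iff.rfl

theorem adj01 {P r : ℤ} (x y : ball d P) : (bg d P r).Adj (0, x) (1, y) ↔
    sq (x.1 + y.1) ≤ P ∧ sq (x.1 - y.1) = r := by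
  rw [bg_adj]
  simp [Rel]

theorem adj02 {P r : ℤ} (x z : ball d P) : (bg d P r).Adj (0, x) (2, z) ↔
    sq (x.1 + z.1) ≤ P ∧ sq (x.1 + x.1 + z.1) = r := by
  rw [bg_adj]
  simp [Rel]

theorem adj12 {P r : ℤ} (y z : ball d P) : (bg d P r).Adj (1, y) (2, z) ↔
    sq (y.1 + z.1) ≤ P ∧ sq (y.1 + y.1 + z.1) = r := by
  rw [bg_adj]
  simp [Rel]

theorem adj_same {P r : ℤ} (i : Fin 3) (x y : ball d P) : ¬ (bg d P r).Adj (i, x) (i, y) := by
  rw [bg_adj]
  rintro (h | h)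
  · exact lt_irrefl _ h.lt
  · exact lt_irrefl _ h.lt

/-- A transversal triangle satisfies x + y + z = 0. -/
theorem tri_zero {P r : ℤ} {x y z : ball d P} (h01 : (bg d P r).Adj (0, x) (1, y))
    (h02 : (bg d P r).Adj (0, x) (2, z)) (h12 : (bg d P r).Adj (1, y) (2, z)) :
    x.1 + y.1 + z.1 = 0 := by
  rw [adj01] at h01
  rw [adj02] at h02
  rw [adj12] at h12
  apply sq_eq_zero
  have := sq_identity x.1 y.1 z.1
  rw [h01.2, h02.2, h12.2] at this
  linarith

theorem mk_tri {P r : ℤ} {x y z : Fin d → ℤ} (hx : sq x ≤ P) (hy : sq y ≤ P) (hz : sq z ≤ P)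
    (h0 : x + y + z = 0) (hr : sq (x - y) = r) :
    (bg d P r).Adj (0, ⟨x, hx⟩) (1, ⟨y, hy⟩) ∧ (bg d P r).Adj (0, ⟨x, hx⟩) (2, ⟨z, hz⟩) ∧
      (bg d P r).Adj (1, ⟨y, hy⟩) (2, ⟨z, hz⟩) := by
  have e1 : x + y = -z := by
    have : x + y + z - z = 0 - z := by rw [h0]
    simpa using this
  have e2 : x + z = -y := by
    have : x + y + z - y = 0 - y := by rw [h0]
    rw [zero_sub] at this
    rw [← this]
    abel
  have e3 : y + z = -x := by
    have : x + y + z - x = 0 - x := by rw [h0]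
    rw [zero_sub] at this
    rw [← this]
    abel
  refine ⟨(adj01 _ _).2 ⟨?_, hr⟩, (adj02 _ _).2 ⟨?_, ?_⟩, (adj12 _ _).2 ⟨?_, ?_⟩⟩
  · show sq (x + y) ≤ P
    rw [e1, sq_neg']; exact hz
  · show sq (x + z) ≤ P
    rw [e2, sq_neg']; exact hy
  · show sq (x + x + z) = r
    rw [add_assoc, e2, ← sub_eq_add_neg]; exact hr
  · show sq (y + z) ≤ P
    rw [e3, sq_neg']; exact hx
  · show sq (y + y + z) = r
    rw [add_assoc, e3, ← sub_eq_add_neg, sq_sub_comm]; exact hr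

theorem bg_unique (d : ℕ) (P r : ℤ) : UniqueTriangle (bg d P r) := by
  -- it suffices to treat edges oriented from lower to higher part
  have key : ∀ u v : Fin 3 × ball d P, u.1 < v.1 → (bg d P r).Adj u v →
      ∃! w, (bg d P r).Adj u w ∧ (bg d P r).Adj v w := by
    rintro ⟨i, x, hx⟩ ⟨j, y, hy⟩ hij hadj
    have hcases : (i = 0 ∧ j = 1) ∨ (i = 0 ∧ j = 2) ∨ (i = 1 ∧ j = 2) := by
      have hall : ∀ i j : Fin 3, i < j → (i = 0 ∧ j = 1) ∨ (i = 0 ∧ j = 2) ∨ (i = 1 ∧ j = 2) := by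
        decide
      exact hall i j hij
    rcases hcases with ⟨rfl, rfl⟩ | ⟨rfl, rfl⟩ | ⟨rfl, rfl⟩
    · -- parts 0 and 1
      have h := (adj01 _ _).1 hadj
      simp only at h
      have hz : sq (-(x + y)) ≤ P := by rw [sq_neg']; exact h.1
      obtain ⟨t1, t2, t3⟩ := mk_tri (r := r) hx hy hz (by abel) h.2
      refine ⟨(2, ⟨-(x + y), hz⟩), ⟨t2, t3⟩, ?_⟩
      rintro ⟨k, z, hz'⟩ ⟨h1, h2⟩
      have hk : k = 2 := by
        have a0 : k ≠ 0 := fun h => by subst h; exact adj_same _ _ _ h1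
        have a1 : k ≠ 1 := fun h => by subst h; exact adj_same _ _ _ h2
        exact (by decide : ∀ k : Fin 3, k ≠ 0 → k ≠ 1 → k = 2) k a0 a1
      subst hk
      have := tri_zero hadj h1 h2
      simp only at this
      have hz2 : z = -(x + y) := by
        rw [eq_neg_iff_add_eq_zero]
        rw [← this]; abel
      subst hz2
      rfl
    · -- parts 0 and 2
      have h := (adj02 _ _).1 hadj
      simp only at h
      have hz : sq (-(x + y)) ≤ P := by rw [sq_neg']; exact h.1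
      have hr : sq (x - -(x + y)) = r := by
        rw [← h.2]
        congr 1
        abel
      obtain ⟨t1, t2, t3⟩ := mk_tri (r := r) hx hz hy (by abel) hr
      refine ⟨(1, ⟨-(x + y), hz⟩), ⟨t1, t3.symm⟩, ?_⟩
      rintro ⟨k, z, hz'⟩ ⟨h1, h2⟩
      have hk : k = 1 := by
        have a0 : k ≠ 0 := fun h => by subst h; exact adj_same _ _ _ h1
        have a1 : k ≠ 2 := fun h => by subst h; exact adj_same _ _ _ h2
        exact (by decide : ∀ k : Fin 3, k ≠ 0 → k ≠ 2 → k = 1) k a0 a1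
      subst hk
      have := tri_zero h1 hadj h2.symm
      simp only at this
      have hz2 : z = -(x + y) := by
        rw [eq_neg_iff_add_eq_zero]
        rw [← this]; abel
      subst hz2
      rfl
    · -- parts 1 and 2
      have h := (adj12 _ _).1 hadj
      simp only at h
      have hz : sq (-(x + y)) ≤ P := by rw [sq_neg']; exact h.1
      have hr : sq (-(x + y) - x) = r := by
        rw [sq_sub_comm, ← h.2]
        congr 1
        abel
      obtain ⟨t1, t2, t3⟩ := mk_tri (r := r) hz hx hy (by abel) hr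
      refine ⟨(0, ⟨-(x + y), hz⟩), ⟨t1.symm, t2.symm⟩, ?_⟩
      rintro ⟨k, z, hz'⟩ ⟨h1, h2⟩
      have hk : k = 0 := by
        have a0 : k ≠ 1 := fun h => by subst h; exact adj_same _ _ _ h1
        have a1 : k ≠ 2 := fun h => by subst h; exact adj_same _ _ _ h2
        exact (by decide : ∀ k : Fin 3, k ≠ 1 → k ≠ 2 → k = 0) k a0 a1
      subst hk
      have := tri_zero h1.symm h2.symm hadj
      simp only at this
      have hz2 : z = -(x + y) := by
        rw [eq_neg_iff_add_eq_zero]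
        rw [← this]; abel
      subst hz2
      rfl
  intro u v huv
  rcases lt_trichotomy u.1 v.1 with h | h | h
  · exact key u v h huv
  · exfalso
    obtain ⟨i, x⟩ := u
    obtain ⟨j, y⟩ := v
    simp only at h
    subst h
    exact adj_same _ _ _ huv
  · obtain ⟨w, ⟨h1, h2⟩, h3⟩ := key v u h huv.symm
    exact ⟨w, ⟨h2, h1⟩, fun w' hw' => h3 w' ⟨hw'.2, hw'.1⟩⟩

/-- The pairs counted. -/
def pairs (d : ℕ) (P r : ℤ) : Set ((Fin d → ℤ) × (Fin d → ℤ)) :=
  {p | sq p.1 ≤ P ∧ sq p.2 ≤ P ∧ sq (p.1 + p.2) ≤ P ∧ sq (p.1 - p.2) = r}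

theorem pairs_finite (d : ℕ) (P r : ℤ) : (pairs d P r).Finite :=
  ((ball_finite d P).prod (ball_finite d P)).subset (fun _ hp => ⟨hp.1, hp.2.1⟩)

instance (d : ℕ) (P : ℤ) : Finite (ball d P) := (ball_finite d P).to_subtype

theorem bg_edges (d : ℕ) (P r : ℤ) : (pairs d P r).ncard ≤ (bg d P r).edgeSet.ncard := by
  have hmem : ∀ (p : pairs d P r),
      s(((0 : Fin 3), (⟨p.1.1, p.2.1⟩ : ball d P)), ((1 : Fin 3), (⟨p.1.2, p.2.2.1⟩ : ball d P))) ∈
        (bg d P r).edgeSet := by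
    intro p
    rw [SimpleGraph.mem_edgeSet, adj01]
    exact ⟨p.2.2.2.1, p.2.2.2.2⟩
  rw [← Nat.card_coe_set_eq, ← Nat.card_coe_set_eq]
  have : Finite (bg d P r).edgeSet := Set.toFinite _
  apply Nat.card_le_card_of_injective (fun p : pairs d P r =>
    (⟨s(((0 : Fin 3), (⟨p.1.1, p.2.1⟩ : ball d P)), ((1 : Fin 3), (⟨p.1.2, p.2.2.1⟩ : ball d P))),
      hmem p⟩ : (bg d P r).edgeSet))
  rintro ⟨⟨x, y⟩, hp⟩ ⟨⟨x', y'⟩, hp'⟩ h
  simp only [Subtype.mk.injEq, Sym2.eq_iff, Prod.mk.injEq] at h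
  rcases h with h | h
  · simp only [Subtype.mk.injEq, Prod.mk.injEq]
    exact ⟨h.1.2, h.2.2⟩
  · exact absurd h.1.1 (by decide)

/-- Transfer to the vertex set Fin n. -/
theorem exists_graph (d : ℕ) (P r : ℤ) {n : ℕ} (hn : 3 * (ball d P).ncard ≤ n) :
    ∃ G : SimpleGraph (Fin n), UniqueTriangle G ∧ (pairs d P r).ncard ≤ G.edgeSet.ncard := by
  classical
  have hcard : Nat.card (Fin 3 × ball d P) ≤ Nat.card (Fin n) := by
    rw [Nat.card_prod, Nat.card_coe_set_eq, Nat.card_fin, Nat.card_fin]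
    exact hn
  obtain ⟨e⟩ : Nonempty ((Fin 3 × ball d P) ↪ Fin n) := by
    have : Fintype (Fin 3 × ball d P) := Fintype.ofFinite _
    rw [Nat.card_eq_fintype_card, Nat.card_eq_fintype_card] at hcard
    exact Function.Embedding.nonempty_of_card_le hcard
  refine ⟨(bg d P r).map e, ?_, ?_⟩
  · intro a b hab
    rw [SimpleGraph.map_adj] at hab
    obtain ⟨u, v, huv, rfl, rfl⟩ := hab
    obtain ⟨w, ⟨h1, h2⟩, h3⟩ := bg_unique d P r u v huv
    refine ⟨e w, ⟨(SimpleGraph.map_adj_apply).2 h1, (SimpleGraph.map_adj_apply).2 h2⟩, ?_⟩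
    rintro c ⟨hc1, hc2⟩
    rw [SimpleGraph.map_adj] at hc1 hc2
    obtain ⟨u', w', h4, h5, h6⟩ := hc1
    obtain ⟨v', w'', h7, h8, h9⟩ := hc2
    have e1 : u' = u := e.injective h5
    have e2 : v' = v := e.injective h8
    have e3 : w'' = w' := e.injective (h9.trans h6.symm)
    subst e1 e2 e3
    rw [← h6, h3 _ ⟨h4, h7⟩]
  · refine (bg_edges d P r).trans (le_of_eq ?_)
    rw [SimpleGraph.edgeSet_map, Set.ncard_image_of_injective]
    exact e.sym2Map.injective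

end Pool.Agent.Lib.MP_8535cc_co
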