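import Pool.Agent.Lib.MP_8535cc_co.H51.Theta

/-!
Two dimensional Gaussian sums for the quadratic form a^2 + b^2 + (a+b)^2.
-/

namespace Pool.Agent.Lib.MP_8535cc_co

open Finset Real

/-- A sum over at most `2`-to-`1` fibres. -/
theorem shift_le {α : ℝ} (hα : 0 < α) (c : ℤ) (s : Finset ℤ) :
    ∑ b ∈ s, Real.exp (-(α / 4) * (2 * b + c : ℝ) ^ 2) ≤ 2 + gz α := by
  classical
  let j : ℤ → ℕ := fun b => (2 * b + c).natAbs / 2
  have h1 : ∀ b ∈ s, Real.exp (-(α / 4) * (2 * b + c : ℝ) ^ 2) ≤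
      Real.exp (-α * ((j b : ℕ) : ℝ) ^ 2) := by
    intro b _
    apply Real.exp_le_exp.2
    have h2 : 2 * j b ≤ (2 * b + c).natAbs := Nat.mul_div_le _ _
    have h3 : ((2 * j b : ℕ) : ℝ) ≤ (((2 * b + c).natAbs : ℕ) : ℝ) := by exact_mod_cast h2
    have h4 : (((2 * b + c).natAbs : ℕ) : ℝ) ^ 2 = (2 * b + c : ℝ) ^ 2 := by
      rw [Nat.cast_natAbs]
      push_cast
      rw [sq_abs]
    have h5 : (2 * (j b : ℝ)) ^ 2 ≤ (2 * b + c : ℝ) ^ 2 := by
      rw [← h4]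
      apply pow_le_pow_left₀ (by positivity)
      push_cast at h3
      exact h3
    nlinarith
  obtain ⟨N, hN⟩ : ∃ N, ∀ b ∈ s, j b ∈ Finset.range N := by
    refine ⟨s.sup j + 1, fun b hb => ?_⟩
    rw [Finset.mem_range]
    have := Finset.le_sup (f := j) hb
    omega
  calc ∑ b ∈ s, Real.exp (-(α / 4) * (2 * b + c : ℝ) ^ 2)
      ≤ ∑ b ∈ s, Real.exp (-α * ((j b : ℕ) : ℝ) ^ 2) := Finset.sum_le_sum h1
    _ = ∑ i ∈ Finset.range N, ∑ b ∈ s with j b = i, Real.exp (-α * ((j b : ℕ) : ℝ) ^ 2) := by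
        rw [Finset.sum_fiberwise_of_maps_to hN]
    _ ≤ ∑ i ∈ Finset.range N, 2 * Real.exp (-α * (i : ℝ) ^ 2) := by
        apply Finset.sum_le_sum
        intro i _
        have h6 : ∑ b ∈ s with j b = i, Real.exp (-α * ((j b : ℕ) : ℝ) ^ 2) =
            ∑ b ∈ s with j b = i, Real.exp (-α * (i : ℝ) ^ 2) := by
          apply Finset.sum_congr rfl
          intro b hb
          rw [(Finset.mem_filter.1 hb).2]
        rw [h6, Finset.sum_const, nsmul_eq_mul]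
        apply mul_le_mul_of_nonneg_right _ (Real.exp_pos _).le
        have h7 : (s.filter (fun b => j b = i)).card ≤ 2 := by
          -- the fibre has at most two elements
          have h8 : s.filter (fun b => j b = i) ⊆
              {((2 * (i : ℤ) + c % 2) - c) / 2, (-(2 * (i : ℤ) + c % 2) - c) / 2} := by
            intro b hb
            have h9 : (2 * b + c).natAbs / 2 = i := (Finset.mem_filter.1 hb).2
            rw [Finset.mem_insert, Finset.mem_singleton]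
            omega
          exact (Finset.card_le_card h8).trans Finset.card_le_two
        exact_mod_cast h7
    _ = 2 * ∑ i ∈ Finset.range N, Real.exp (-α * (i : ℝ) ^ 2) := by rw [Finset.mul_sum]
    _ ≤ 2 + gz α := by
        have := sum_gauss_le hα N
        linarith

/-- The same for the unshifted sum. -/
theorem unshift_le {α : ℝ} (hα : 0 < α) (s : Finset ℤ) :
    ∑ b ∈ s, Real.exp (-α * (b : ℝ) ^ 2) ≤ 2 + gz α := by
  have := shift_le hα 0 s
  refine le_trans (le_of_eq ?_) this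
  apply Finset.sum_congr rfl
  intro b _
  congr 1
  push_cast
  ring

theorem shift_ge {α : ℝ} (hα : 0 < α) :
    ∃ K₀ : ℕ, ∀ K : ℕ, K₀ ≤ K → ∀ a : ℤ, a ∈ Finset.Icc (-(K : ℤ)) K →
      gz α - 3 ≤ ∑ b ∈ Finset.Icc (-(K : ℤ)) K, Real.exp (-(α / 4) * (2 * b + a : ℝ) ^ 2) := by
  classical
  obtain ⟨N₀, hN₀⟩ := sum_gauss_ge hα
  refine ⟨2 * N₀ + 2, fun K hK a ha => ?_⟩
  rw [Finset.mem_Icc] at ha
  have h0 := hN₀ N₀ le_rfl
  -- the two injections
  let p : ℕ → ℤ := fun j => j - a / 2 - a % 2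
  let m : ℕ → ℤ := fun j => -j - a / 2
  have hp : Set.InjOn p (Finset.Icc 1 N₀ : Finset ℕ) := by
    intro x _ y _ h
    simp only [p] at h
    omega
  have hm : Set.InjOn m (Finset.Icc 1 N₀ : Finset ℕ) := by
    intro x _ y _ h
    simp only [m] at h
    omega
  have hdisj : Disjoint ((Finset.Icc 1 N₀).image p) ((Finset.Icc 1 N₀).image m) := by
    rw [Finset.disjoint_left]
    intro x hx hx'
    obtain ⟨i, hi, rfl⟩ := Finset.mem_image.1 hx
    obtain ⟨k, hk, hk'⟩ := Finset.mem_image.1 hx'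
    rw [Finset.mem_Icc] at hi hk
    simp only [p, m] at hk'
    omega
  have hsub : ((Finset.Icc 1 N₀).image p) ∪ ((Finset.Icc 1 N₀).image m) ⊆
      Finset.Icc (-(K : ℤ)) K := by
    intro x hx
    rw [Finset.mem_union] at hx
    rcases hx with hx | hx
    · obtain ⟨i, hi, rfl⟩ := Finset.mem_image.1 hx
      rw [Finset.mem_Icc] at hi ⊢
      simp only [p]
      omega
    · obtain ⟨i, hi, rfl⟩ := Finset.mem_image.1 hx
      rw [Finset.mem_Icc] at hi ⊢
      simp only [m]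
      omega
  have h1 : ∑ j ∈ Finset.Icc 1 N₀, Real.exp (-α * (j : ℝ) ^ 2) ≤
      ∑ b ∈ (Finset.Icc 1 N₀).image p, Real.exp (-(α / 4) * (2 * b + a : ℝ) ^ 2) := by
    rw [Finset.sum_image hp]
    apply Finset.sum_le_sum
    intro j hj
    rw [Finset.mem_Icc] at hj
    apply Real.exp_le_exp.2
    have h2 : 2 * p j + a = 2 * j - a % 2 := by
      simp only [p]
      omega
    have h3 : (2 * (p j : ℝ) + a) = 2 * j - ((a % 2 : ℤ) : ℝ) := by exact_mod_cast h2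
    rw [h3]
    have h4 : (0 : ℝ) ≤ ((a % 2 : ℤ) : ℝ) := by
      exact_mod_cast Int.emod_nonneg a (by norm_num)
    have h5 : ((a % 2 : ℤ) : ℝ) ≤ 1 := by
      have : a % 2 ≤ 1 := by omega
      exact_mod_cast this
    have h6 : (1 : ℝ) ≤ j := by exact_mod_cast hj.1
    have h7 : (2 * (j : ℝ) - ((a % 2 : ℤ) : ℝ)) ^ 2 ≤ (2 * (j : ℝ)) ^ 2 := by
      apply pow_le_pow_left₀
      · linarith
      · linarith
    nlinarith
  have h1' : ∑ j ∈ Finset.Icc 1 N₀, Real.exp (-α * (j : ℝ) ^ 2) ≤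
      ∑ b ∈ (Finset.Icc 1 N₀).image m, Real.exp (-(α / 4) * (2 * b + a : ℝ) ^ 2) := by
    rw [Finset.sum_image hm]
    apply Finset.sum_le_sum
    intro j hj
    rw [Finset.mem_Icc] at hj
    apply Real.exp_le_exp.2
    have h2 : 2 * m j + a = -(2 * j - a % 2) := by
      simp only [m]
      omega
    have h3 : (2 * (m j : ℝ) + a) = -(2 * j - ((a % 2 : ℤ) : ℝ)) := by exact_mod_cast h2
    rw [h3, neg_sq]
    have h4 : (0 : ℝ) ≤ ((a % 2 : ℤ) : ℝ) := by
      exact_mod_cast Int.emod_nonneg a (by norm_num)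
    have h5 : ((a % 2 : ℤ) : ℝ) ≤ 1 := by
      have : a % 2 ≤ 1 := by omega
      exact_mod_cast this
    have h6 : (1 : ℝ) ≤ j := by exact_mod_cast hj.1
    have h7 : (2 * (j : ℝ) - ((a % 2 : ℤ) : ℝ)) ^ 2 ≤ (2 * (j : ℝ)) ^ 2 := by
      apply pow_le_pow_left₀
      · linarith
      · linarith
    nlinarith
  have h8 : ∑ b ∈ ((Finset.Icc 1 N₀).image p) ∪ ((Finset.Icc 1 N₀).image m),
      Real.exp (-(α / 4) * (2 * b + a : ℝ) ^ 2) ≤
      ∑ b ∈ Finset.Icc (-(K : ℤ)) K, Real.exp (-(α / 4) * (2 * b + a : ℝ) ^ 2) :=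
    Finset.sum_le_sum_of_subset_of_nonneg hsub (fun _ _ _ => (Real.exp_pos _).le)
  rw [Finset.sum_union hdisj] at h8
  linarith

theorem unshift_ge {α : ℝ} (hα : 0 < α) :
    ∃ K₀ : ℕ, ∀ K : ℕ, K₀ ≤ K →
      gz α - 3 ≤ ∑ b ∈ Finset.Icc (-(K : ℤ)) K, Real.exp (-α * (b : ℝ) ^ 2) := by
  obtain ⟨K₀, h⟩ := shift_ge hα
  refine ⟨K₀, fun K hK => ?_⟩
  refine (h K hK 0 (by simp)).trans (le_of_eq ?_)
  apply Finset.sum_congr rfl
  intro b _
  congr 1
  push_cast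
  ring

/-- The square box of pairs. -/
noncomputable def pbox (K : ℕ) : Finset (ℤ × ℤ) := Finset.Icc (-(K : ℤ)) K ×ˢ Finset.Icc (-(K : ℤ)) K

/-- The quadratic form. -/
noncomputable def Q (p : ℤ × ℤ) : ℝ := (p.1 : ℝ) ^ 2 + (p.2 : ℝ) ^ 2 + ((p.1 : ℝ) + p.2) ^ 2

theorem pair_upper_x {l t : ℝ} (hl : 0 < l) (ht : t < 3 * l / 2) (K : ℕ) :
    ∑ p ∈ pbox K, Real.exp (-l * Q p + t * (p.1 : ℝ) ^ 2) ≤
      (2 + gz (2 * l)) * (2 + gz (3 * l / 2 - t)) := by
  unfold pbox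
  rw [Finset.sum_product]
  have h1 : ∀ a ∈ Finset.Icc (-(K : ℤ)) K,
      ∑ b ∈ Finset.Icc (-(K : ℤ)) K, Real.exp (-l * Q (a, b) + t * ((a, b).1 : ℝ) ^ 2) ≤
      (2 + gz (2 * l)) * Real.exp (-(3 * l / 2 - t) * (a : ℝ) ^ 2) := by
    intro a _
    have h2 := shift_le (α := 2 * l) (by linarith) a (Finset.Icc (-(K : ℤ)) K)
    calc ∑ b ∈ Finset.Icc (-(K : ℤ)) K, Real.exp (-l * Q (a, b) + t * ((a, b).1 : ℝ) ^ 2)
        = (∑ b ∈ Finset.Icc (-(K : ℤ)) K, Real.exp (-(2 * l / 4) * (2 * b + a : ℝ) ^ 2)) *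
            Real.exp (-(3 * l / 2 - t) * (a : ℝ) ^ 2) := by
          rw [Finset.sum_mul]
          apply Finset.sum_congr rfl
          intro b _
          rw [← Real.exp_add]
          congr 1
          simp only [Q]
          ring
      _ ≤ _ := mul_le_mul_of_nonneg_right h2 (Real.exp_pos _).le
  refine (Finset.sum_le_sum h1).trans ?_
  rw [← Finset.mul_sum]
  apply mul_le_mul_of_nonneg_left (unshift_le (by linarith) _)
  have := gz_pos (α := 2 * l) (by linarith)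
  linarith

theorem pair_upper_y {l t : ℝ} (hl : 0 < l) (ht : t < 3 * l / 2) (K : ℕ) :
    ∑ p ∈ pbox K, Real.exp (-l * Q p + t * (p.2 : ℝ) ^ 2) ≤
      (2 + gz (2 * l)) * (2 + gz (3 * l / 2 - t)) := by
  refine le_trans (le_of_eq ?_) (pair_upper_x hl ht K)
  unfold pbox
  rw [Finset.sum_product, Finset.sum_product_right]
  apply Finset.sum_congr rfl
  intro a _
  apply Finset.sum_congr rfl
  intro b _
  congr 1
  simp only [Q]
  ring

theorem pair_upper_z {l t : ℝ} (hl : 0 < l) (ht : t < 3 * l / 2) (K : ℕ) :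
    ∑ p ∈ pbox K, Real.exp (-l * Q p + t * ((p.1 : ℝ) + p.2) ^ 2) ≤
      (2 + gz (2 * l)) * (2 + gz (3 * l / 2 - t)) := by
  classical
  -- change variables (a, b) to (a, -(a+b))
  let φ : ℤ × ℤ → ℤ × ℤ := fun p => (-(p.1 + p.2), p.1)
  have hφ : Set.InjOn φ (pbox K) := by
    rintro ⟨a, b⟩ _ ⟨a', b'⟩ _ h
    simp only [φ, Prod.mk.injEq] at h
    simp only [Prod.mk.injEq]
    omega
  have hsub : (pbox K).image φ ⊆ pbox (2 * K) := by
    intro x hx
    obtain ⟨⟨a, b⟩, hp, rfl⟩ := Finset.mem_image.1 hx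
    simp only [pbox, Finset.mem_product, Finset.mem_Icc, φ] at hp ⊢
    push_cast
    omega
  calc ∑ p ∈ pbox K, Real.exp (-l * Q p + t * ((p.1 : ℝ) + p.2) ^ 2)
      = ∑ p ∈ pbox K, Real.exp (-l * Q (φ p) + t * (((φ p).1 : ℤ) : ℝ) ^ 2) := by
        apply Finset.sum_congr rfl
        intro p _
        congr 1
        simp only [Q, φ]
        push_cast
        ring
    _ = ∑ p ∈ (pbox K).image φ, Real.exp (-l * Q p + t * (p.1 : ℝ) ^ 2) := by
        rw [Finset.sum_image hφ]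
    _ ≤ ∑ p ∈ pbox (2 * K), Real.exp (-l * Q p + t * (p.1 : ℝ) ^ 2) :=
        Finset.sum_le_sum_of_subset_of_nonneg hsub (fun _ _ _ => (Real.exp_pos _).le)
    _ ≤ _ := pair_upper_x hl ht _

theorem pair_lower {l : ℝ} (hl : 0 < l) (h3 : 3 ≤ gz (2 * l)) :
    ∃ K₀ : ℕ, ∀ K : ℕ, K₀ ≤ K →
      (gz (2 * l) - 3) * (gz (3 * l / 2) - 3) ≤ ∑ p ∈ pbox K, Real.exp (-l * Q p) := by
  obtain ⟨K₁, hK₁⟩ := shift_ge (α := 2 * l) (by linarith)
  obtain ⟨K₂, hK₂⟩ := unshift_ge (α := 3 * l / 2) (by linarith)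
  refine ⟨max K₁ K₂, fun K hK => ?_⟩
  unfold pbox
  rw [Finset.sum_product]
  have h1 : ∀ a ∈ Finset.Icc (-(K : ℤ)) K,
      (gz (2 * l) - 3) * Real.exp (-(3 * l / 2) * (a : ℝ) ^ 2) ≤
      ∑ b ∈ Finset.Icc (-(K : ℤ)) K, Real.exp (-l * Q (a, b)) := by
    intro a ha
    have h2 := hK₁ K (le_trans (le_max_left _ _) hK) a ha
    calc (gz (2 * l) - 3) * Real.exp (-(3 * l / 2) * (a : ℝ) ^ 2)
        ≤ (∑ b ∈ Finset.Icc (-(K : ℤ)) K, Real.exp (-(2 * l / 4) * (2 * b + a : ℝ) ^ 2)) *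
            Real.exp (-(3 * l / 2) * (a : ℝ) ^ 2) :=
          mul_le_mul_of_nonneg_right h2 (Real.exp_pos _).le
      _ = _ := by
          rw [Finset.sum_mul]
          apply Finset.sum_congr rfl
          intro b _
          rw [← Real.exp_add]
          congr 1
          simp only [Q]
          ring
  refine le_trans ?_ (Finset.sum_le_sum h1)
  rw [← Finset.mul_sum]
  apply mul_le_mul_of_nonneg_left _ (by linarith)
  exact hK₂ K (le_trans (le_max_right _ _) hK)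

end Pool.Agent.Lib.MP_8535cc_co
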