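import Pool.Agent.Lib.MP_8535cc_co.H51.Count
import Pool.Agent.Lib.MP_8535cc_co.H51.Graph

/-!
Combining the count with the graph.
-/

namespace Pool.Agent.Lib.MP_8535cc_co

open Finset Real

/-- The size of the lattice ball. -/
theorem ball_card (d P : ℕ) {α : ℝ} (hα : 0 < α) :
    ((ball d P).ncard : ℝ) ≤ Real.exp (α * P) * (2 + gz α) ^ d := by
  classical
  set F := (ball_finite d P).toFinset with hF
  have h1 : F ⊆ Fintype.piFinset (fun _ : Fin d => Finset.Icc (-(P : ℤ)) P) := by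
    intro x hx
    rw [hF, Set.Finite.mem_toFinset] at hx
    rw [Fintype.mem_piFinset]
    intro i
    have h1 : x i ^ 2 ≤ sq x :=
      Finset.single_le_sum (f := fun i => x i ^ 2) (fun i _ => sq_nonneg (x i))
        (Finset.mem_univ i)
    have h2 : x i ^ 2 ≤ P := h1.trans hx
    have h3 : |x i| ≤ x i ^ 2 := by
      rw [← sq_abs]
      have := abs_nonneg (x i)
      rcases eq_or_lt_of_le this with h0 | h0
      · rw [← h0]; norm_num
      · nlinarith
    rw [Finset.mem_Icc]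
    exact abs_le.1 (h3.trans h2)
  have h2 : ((ball d P).ncard : ℝ) = F.card := by
    rw [Set.ncard_eq_toFinset_card _ (ball_finite d P)]
  rw [h2]
  have h3 : (F.card : ℝ) ≤ ∑ x ∈ F, Real.exp (α * P) * Real.exp (∑ i, -α * (x i : ℝ) ^ 2) := by
    rw [Finset.card_eq_sum_ones, Nat.cast_sum]
    apply Finset.sum_le_sum
    intro x hx
    rw [← Real.exp_add, Nat.cast_one]
    apply Real.one_le_exp
    rw [hF, Set.Finite.mem_toFinset] at hx
    rw [← Finset.mul_sum]
    have h4 : (sq x : ℝ) ≤ P := by exact_mod_cast hx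
    have h5 : (sq x : ℝ) = ∑ i, (x i : ℝ) ^ 2 := by
      rw [sq]
      push_cast
      rfl
    rw [← h5]
    have := mul_le_mul_of_nonneg_left h4 hα.le
    linarith
  refine h3.trans ?_
  rw [← Finset.mul_sum]
  apply mul_le_mul_of_nonneg_left _ (Real.exp_pos _).le
  calc ∑ x ∈ F, Real.exp (∑ i, -α * (x i : ℝ) ^ 2)
      ≤ ∑ x ∈ Fintype.piFinset (fun _ : Fin d => Finset.Icc (-(P : ℤ)) P),
          Real.exp (∑ i, -α * (x i : ℝ) ^ 2) :=
        Finset.sum_le_sum_of_subset_of_nonneg h1 (fun _ _ _ => (Real.exp_pos _).le)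
    _ = (∑ b ∈ Finset.Icc (-(P : ℤ)) P, Real.exp (-α * (b : ℝ) ^ 2)) ^ d := by
        simp_rw [Real.exp_sum]
        rw [← Finset.prod_univ_sum (fun _ : Fin d => Finset.Icc (-(P : ℤ)) P)
          (fun _ b => Real.exp (-α * (b : ℝ) ^ 2))]
        simp
    _ ≤ (2 + gz α) ^ d :=
        pow_le_pow_left₀ (Finset.sum_nonneg (fun _ _ => (Real.exp_pos _).le))
          (unshift_le hα _) d

/-- Pigeonhole on the value of the squared distance. -/
theorem graph_of_pairs (d P : ℕ) {n : ℕ} (hn : 3 * (ball d P).ncard ≤ n)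
    (S : Finset (Fin d → ℤ × ℤ))
    (hS : ∀ p ∈ S, ∑ i, ((p i).1 : ℝ) ^ 2 ≤ P ∧ ∑ i, ((p i).2 : ℝ) ^ 2 ≤ P ∧
      ∑ i, (((p i).1 : ℝ) + (p i).2) ^ 2 ≤ P) :
    ∃ G : SimpleGraph (Fin n), UniqueTriangle G ∧
      (S.card : ℝ) ≤ (4 * P + 1) * G.edgeSet.ncard := by
  classical
  let X : (Fin d → ℤ × ℤ) → (Fin d → ℤ) := fun p i => (p i).1
  let Y : (Fin d → ℤ × ℤ) → (Fin d → ℤ) := fun p i => (p i).2
  have hS' : ∀ p ∈ S, sq (X p) ≤ P ∧ sq (Y p) ≤ P ∧ sq (X p + Y p) ≤ P := by
    intro p hp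
    obtain ⟨h1, h2, h3⟩ := hS p hp
    refine ⟨?_, ?_, ?_⟩
    · simp only [sq, X]
      exact_mod_cast h1
    · simp only [sq, Y]
      exact_mod_cast h2
    · simp only [sq, X, Y, Pi.add_apply]
      exact_mod_cast h3
  have hmap : ∀ p ∈ S, sq (X p - Y p) ∈ Finset.Icc (0 : ℤ) (4 * P) := by
    intro p hp
    obtain ⟨h1, h2, h3⟩ := hS' p hp
    rw [Finset.mem_Icc]
    refine ⟨sq_nonneg' _, ?_⟩
    rw [sq_parallelogram]
    have := sq_nonneg' (X p + Y p)
    linarith
  obtain ⟨r, _, hr⟩ := Finset.exists_le_card_fiber_of_nsmul_le_card_of_maps_to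
    (s := S) (t := Finset.Icc (0 : ℤ) (4 * P)) (f := fun p => sq (X p - Y p))
    (b := (S.card : ℝ) / (4 * P + 1)) hmap (Finset.nonempty_Icc.2 (by positivity)) (by
      have hc : (Finset.Icc (0 : ℤ) (4 * P)).card = 4 * P + 1 := by
        rw [Int.card_Icc]
        omega
      rw [hc, nsmul_eq_mul]
      push_cast
      rw [mul_div_cancel₀ _ (by positivity)])
  obtain ⟨G, hG, hGe⟩ := exists_graph d P r hn
  refine ⟨G, hG, ?_⟩
  have h1 : (S.filter (fun p => sq (X p - Y p) = r)).card ≤ (pairs d P r).ncard := by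
    rw [Set.ncard_eq_toFinset_card _ (pairs_finite d P r)]
    apply Finset.card_le_card_of_injOn (fun p => (X p, Y p))
    · intro p hp
      rw [Finset.mem_coe, Finset.mem_filter] at hp
      rw [Finset.mem_coe, Set.Finite.mem_toFinset]
      obtain ⟨h1, h2, h3⟩ := hS' p hp.1
      exact ⟨h1, h2, h3, hp.2⟩
    · intro p _ p' _ h
      simp only [Prod.mk.injEq, X, Y] at h
      funext i
      exact Prod.ext (congrFun h.1 i) (congrFun h.2 i)
  have h2 : (S.card : ℝ) / (4 * P + 1) ≤ G.edgeSet.ncard := by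
    refine hr.trans ?_
    exact_mod_cast h1.trans hGe
  rw [div_le_iff₀ (by positivity)] at h2
  linarith

/-- The finite form of the bound. -/
theorem step {δ κ y : ℝ} {d n : ℕ} (hδ0 : 0 < δ) (hδ1 : δ ≤ 1) (hκ : κ = δ ^ 2 / 64)
    (hd : 34 ≤ δ ^ 2 * d) (hy : 0 < y) (hyn : y ^ d = n / 3)
    (hy2 : 100 * (π * (1 + δ) * Real.exp (1 + 2 * κ)) ≤ 3 * κ ^ 2 * y ^ 2) :
    ∃ G : SimpleGraph (Fin n), UniqueTriangle G ∧
      (n : ℝ) ^ 2 / 18 * Real.exp (-(Real.log (4 / 3) / 2 + 3 * δ) * d) ≤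
        d * y ^ 2 * G.edgeSet.ncard := by
  have hκ0 : 0 < κ := by rw [hκ]; positivity
  have hκ1 : κ ≤ 1 := by
    rw [hκ]
    nlinarith
  have hκδ : 4 * κ ≤ δ := by
    rw [hκ]
    nlinarith
  have hpi := Real.pi_pos
  set l := 2 * π * (1 + δ) * Real.exp (1 + 2 * κ) / (3 * y ^ 2) with hl
  have hl0 : 0 < l := by positivity
  have hl2 : l ≤ κ ^ 2 / 50 := by
    rw [hl, div_le_div_iff₀ (by positivity) (by norm_num)]
    linarith
  obtain ⟨S, hS, hScard⟩ := count hδ0 hδ1 hκ hl0 hl2 hd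
  set P := ⌊(1 + δ) * d / (3 * l)⌋₊ with hP
  have hP0 : 0 ≤ (1 + δ) * d / (3 * l) := by positivity
  have hPle : (P : ℝ) ≤ (1 + δ) * d / (3 * l) := Nat.floor_le hP0
  have hSP : ∀ p ∈ S, ∑ i, ((p i).1 : ℝ) ^ 2 ≤ P ∧ ∑ i, ((p i).2 : ℝ) ^ 2 ≤ P ∧
      ∑ i, (((p i).1 : ℝ) + (p i).2) ^ 2 ≤ P := by
    have key : ∀ z : Fin d → ℤ, ∑ i, (z i : ℝ) ^ 2 ≤ (1 + δ) * d / (3 * l) →
        ∑ i, (z i : ℝ) ^ 2 ≤ P := by
      intro z hz
      have h1 : (∑ i, (z i : ℝ) ^ 2) = (((∑ i, (z i).natAbs ^ 2 : ℕ)) : ℝ) := by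
        push_cast
        apply Finset.sum_congr rfl
        intro i _
        rw [Nat.cast_natAbs]
        push_cast
        rw [sq_abs]
      rw [h1] at hz ⊢
      have := Nat.le_floor hz
      exact_mod_cast this
    intro p hp
    obtain ⟨h1, h2, h3⟩ := hS p hp
    refine ⟨key (fun i => (p i).1) h1, key (fun i => (p i).2) h2, ?_⟩
    have := key (fun i => (p i).1 + (p i).2) (by push_cast; exact h3)
    push_cast at this
    exact this
  -- the volume
  set α := 3 * l / (2 * (1 + δ)) with hα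
  have hα0 : 0 < α := by positivity
  have hαl : α ≤ 4 * l := by
    rw [hα, div_le_iff₀ (by positivity)]
    have := mul_pos hl0 hδ0
    linarith
  have hgα : gz α = y * Real.exp (-(1 / 2 + κ)) := by
    unfold gz
    rw [Real.sqrt_eq_iff_mul_self_eq (by positivity) (by positivity)]
    have e1 : Real.exp (-(1 / 2 + κ)) * Real.exp (-(1 / 2 + κ)) = Real.exp (-(1 + 2 * κ)) := by
      rw [← Real.exp_add]
      congr 1
      ring
    symm
    calc y * Real.exp (-(1 / 2 + κ)) * (y * Real.exp (-(1 / 2 + κ)))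
        = y ^ 2 * (Real.exp (-(1 / 2 + κ)) * Real.exp (-(1 / 2 + κ))) := by ring
      _ = y ^ 2 * (Real.exp (1 + 2 * κ))⁻¹ := by rw [e1, Real.exp_neg]
      _ = π / α := by
          rw [hα, hl]
          have := (Real.exp_pos (1 + 2 * κ)).ne'
          field_simp
  have hvol : 3 * ((ball d P).ncard : ℝ) ≤ n := by
    have h1 := ball_card d P hα0
    have h2 := gz_up hκ0 hα0 hl2 hαl
    have h3 : α * P ≤ d / 2 := by
      calc α * P ≤ α * ((1 + δ) * d / (3 * l)) := mul_le_mul_of_nonneg_left hPle hα0.le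
        _ = d / 2 := by
            rw [hα]
            field_simp
    have h4 : Real.exp (α * P) * (2 + gz α) ^ d ≤ y ^ d := by
      calc Real.exp (α * P) * (2 + gz α) ^ d
          ≤ Real.exp (d / 2) * (Real.exp κ * gz α) ^ d := by
            apply mul_le_mul (Real.exp_le_exp.2 h3) _ _ (Real.exp_pos _).le
            · exact pow_le_pow_left₀ (by linarith [gz_pos hα0]) h2 d
            · have := gz_pos hα0
              positivity
        _ = y ^ d := by
            have e1 : Real.exp ((d : ℝ) / 2) = Real.exp (1 / 2) ^ d := by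
              rw [← Real.exp_nat_mul]
              congr 1
              ring
            rw [e1, ← mul_pow, hgα]
            congr 1
            have e2 : Real.exp (1 / 2) * (Real.exp κ * (y * Real.exp (-(1 / 2 + κ)))) =
                y * (Real.exp (1 / 2) * Real.exp κ * Real.exp (-(1 / 2 + κ))) := by ring
            rw [e2, ← Real.exp_add, ← Real.exp_add]
            have e3 : (1 / 2 + κ + -(1 / 2 + κ) : ℝ) = 0 := by ring
            rw [e3, Real.exp_zero, mul_one]
    have h5 := h1.trans h4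
    rw [hyn] at h5
    linarith
  have hvol' : 3 * (ball d P).ncard ≤ n := by exact_mod_cast hvol
  obtain ⟨G, hG, hGe⟩ := graph_of_pairs d P hvol' S hSP
  refine ⟨G, hG, ?_⟩
  -- the main term
  have hy22 : 2 ≤ y ^ 2 := by
    have h1 : (1 : ℝ) ≤ Real.exp (1 + 2 * κ) := Real.one_le_exp (by positivity)
    have h2 : 3 ≤ π * (1 + δ) * Real.exp (1 + 2 * κ) := by
      have h21 := Real.pi_gt_three
      have h22 : 3 ≤ π * (1 + δ) := by
        have := mul_pos hpi hδ0
        linarith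
      calc (3 : ℝ) = 3 * 1 := by ring
        _ ≤ π * (1 + δ) * Real.exp (1 + 2 * κ) := mul_le_mul h22 h1 (by norm_num) (by positivity)
    have h3 : κ ^ 2 ≤ 1 := pow_le_one₀ hκ0.le hκ1
    have h4 : κ ^ 2 * y ^ 2 ≤ 1 * y ^ 2 := mul_le_mul_of_nonneg_right h3 (sq_nonneg y)
    linarith
  have hd2 : (1 : ℝ) ≤ d := by
    have h1 : δ ^ 2 ≤ 1 := pow_le_one₀ hδ0.le hδ1
    have h2 : δ ^ 2 * (d : ℝ) ≤ 1 * d := mul_le_mul_of_nonneg_right h1 (by positivity)
    linarith
  have hPd : (4 * (P : ℝ) + 1) ≤ d * y ^ 2 := by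
    have h1 : (1 + δ) * d / (3 * l) = d * y ^ 2 / (2 * π * Real.exp (1 + 2 * κ)) := by
      rw [hl]
      have := (Real.exp_pos (1 + 2 * κ)).ne'
      field_simp
    have h2 : d * y ^ 2 / (2 * π * Real.exp (1 + 2 * κ)) ≤ d * y ^ 2 / 12 := by
      apply div_le_div_of_nonneg_left (by positivity) (by norm_num)
      have h3 : (2 : ℝ) ≤ Real.exp (1 + 2 * κ) := by
        have := Real.add_one_le_exp (1 + 2 * κ)
        linarith
      have h4 := Real.pi_gt_three
      calc (12 : ℝ) = 2 * 3 * 2 := by norm_num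
        _ ≤ 2 * π * Real.exp (1 + 2 * κ) := by
            apply mul_le_mul _ h3 (by norm_num) (by positivity)
            linarith
    have h3 : (2 : ℝ) ≤ d * y ^ 2 := by
      calc (2 : ℝ) = 1 * 2 := by norm_num
        _ ≤ d * y ^ 2 := mul_le_mul hd2 hy22 (by norm_num) (by positivity)
    rw [h1] at hPle
    linarith
  have hww : gz (2 * l) * gz (3 * l / 2) * Real.exp (1 - δ - 2 * κ) ≥
      y ^ 2 * Real.exp (-(Real.log (4 / 3) / 2 + 3 * δ)) := by
    have e1 : gz (2 * l) * gz (3 * l / 2) = π / (Real.sqrt 3 * l) := by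
      unfold gz
      rw [← Real.sqrt_mul (by positivity)]
      have : π / (2 * l) * (π / (3 * l / 2)) = (π / l) ^ 2 / 3 := by
        field_simp
      rw [this, Real.sqrt_div (by positivity), Real.sqrt_sq (by positivity)]
      field_simp
    have e2 : Real.exp (-(Real.log (4 / 3) / 2)) = Real.sqrt 3 / 2 := by
      have h1 : Real.log (4 / 3) / 2 = Real.log (Real.sqrt (4 / 3)) := by
        rw [Real.log_sqrt (by norm_num)]
      rw [h1, ← Real.log_inv, Real.exp_log (by positivity)]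
      rw [Real.sqrt_div (by norm_num)]
      have : Real.sqrt 4 = 2 := by
        rw [show (4 : ℝ) = 2 ^ 2 by norm_num]
        exact Real.sqrt_sq (by norm_num)
      rw [this, inv_div]
    have e3 : π / (Real.sqrt 3 * l) = y ^ 2 * (Real.sqrt 3 / 2) * (1 / (1 + δ)) *
        Real.exp (-(1 + 2 * κ)) := by
      rw [hl, Real.exp_neg]
      have h3 : Real.sqrt 3 * Real.sqrt 3 = 3 := Real.mul_self_sqrt (by norm_num)
      have := (Real.exp_pos (1 + 2 * κ)).ne'
      field_simp
      rw [pow_two, h3]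
    have e4 : Real.exp (-δ) ≤ 1 / (1 + δ) := by
      rw [Real.exp_neg, one_div]
      apply inv_anti₀ (by linarith)
      have := Real.add_one_le_exp δ
      linarith
    rw [e1, e3]
    calc y ^ 2 * Real.exp (-(Real.log (4 / 3) / 2 + 3 * δ))
        = y ^ 2 * (Real.sqrt 3 / 2) * Real.exp (-δ) * Real.exp (-(2 * δ)) := by
          rw [← e2]
          have : Real.exp (-(Real.log (4 / 3) / 2 + 3 * δ)) =
              Real.exp (-(Real.log (4 / 3) / 2)) * Real.exp (-δ) * Real.exp (-(2 * δ)) := by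
            rw [← Real.exp_add, ← Real.exp_add]
            congr 1
            ring
          rw [this]
          ring
      _ ≤ y ^ 2 * (Real.sqrt 3 / 2) * (1 / (1 + δ)) * Real.exp (-(δ + 4 * κ)) := by
          apply mul_le_mul _ _ (Real.exp_pos _).le (by positivity)
          · exact mul_le_mul_of_nonneg_left e4 (by positivity)
          · apply Real.exp_le_exp.2
            linarith
      _ = _ := by
          have : Real.exp (-(δ + 4 * κ)) = Real.exp (-(1 + 2 * κ)) *
              Real.exp (1 - δ - 2 * κ) := by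
            rw [← Real.exp_add]
            congr 1
            ring
          rw [this]
          ring
  have hmain : (n : ℝ) ^ 2 / 18 * Real.exp (-(Real.log (4 / 3) / 2 + 3 * δ) * d) ≤ S.card := by
    refine le_trans ?_ hScard
    have h1 : (y ^ 2 * Real.exp (-(Real.log (4 / 3) / 2 + 3 * δ))) ^ d ≤
        (gz (2 * l) * gz (3 * l / 2) * Real.exp (1 - δ - 2 * κ)) ^ d :=
      pow_le_pow_left₀ (by positivity) hww d
    have h2 : (y ^ 2 * Real.exp (-(Real.log (4 / 3) / 2 + 3 * δ))) ^ d =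
        (n / 3 : ℝ) ^ 2 * Real.exp (-(Real.log (4 / 3) / 2 + 3 * δ) * d) := by
      rw [mul_pow, ← pow_mul, mul_comm 2 d, pow_mul, hyn, ← Real.exp_nat_mul]
      congr 2
      ring
    rw [h2] at h1
    calc (n : ℝ) ^ 2 / 18 * Real.exp (-(Real.log (4 / 3) / 2 + 3 * δ) * d)
        = 1 / 2 * ((n / 3 : ℝ) ^ 2 * Real.exp (-(Real.log (4 / 3) / 2 + 3 * δ) * d)) := by ring
      _ ≤ _ := mul_le_mul_of_nonneg_left h1 (by norm_num)
  calc (n : ℝ) ^ 2 / 18 * Real.exp (-(Real.log (4 / 3) / 2 + 3 * δ) * d) ≤ S.card := hmain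
    _ ≤ (4 * P + 1) * G.edgeSet.ncard := hGe
    _ ≤ d * y ^ 2 * G.edgeSet.ncard := mul_le_mul_of_nonneg_right hPd (by positivity)

end Pool.Agent.Lib.MP_8535cc_co
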