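import Mathlib

/-!
One dimensional Gaussian sums.
-/

namespace Pool.Agent.Lib.MP_8535cc_co

open Finset Real MeasureTheory Set

/-- The Gaussian normalisation. -/
noncomputable def gz (α : ℝ) : ℝ := √(π / α)

theorem gz_pos {α : ℝ} (hα : 0 < α) : 0 < gz α := Real.sqrt_pos.2 (div_pos Real.pi_pos hα)

theorem gauss_antitone {α : ℝ} (hα : 0 < α) (s : Set ℝ) (hs : s ⊆ Set.Ici 0) :
    AntitoneOn (fun x : ℝ => Real.exp (-α * x ^ 2)) s := by
  intro x hx y hy hxy
  apply Real.exp_le_exp.2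
  have h0 : 0 ≤ x := hs hx
  have h1 : x ^ 2 ≤ y ^ 2 := pow_le_pow_left₀ h0 hxy 2
  nlinarith

theorem sum_gauss_le {α : ℝ} (hα : 0 < α) (N : ℕ) :
    ∑ j ∈ Finset.range N, Real.exp (-α * (j : ℝ) ^ 2) ≤ 1 + gz α / 2 := by
  have h1 : ∀ M : ℕ, ∑ j ∈ Finset.range M, Real.exp (-α * ((j + 1 : ℕ) : ℝ) ^ 2) ≤ gz α / 2 := by
    intro M
    have h2 := AntitoneOn.sum_le_integral (x₀ := 0) (a := M)
      (gauss_antitone hα (Set.Icc (0 : ℝ) (0 + M)) (fun x hx => hx.1))
    have h3 : ∫ x in (0 : ℝ)..(0 + M), Real.exp (-α * x ^ 2) ≤ gz α / 2 := by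
      rw [intervalIntegral.integral_of_le (by positivity), gz, ← integral_gaussian_Ioi]
      apply setIntegral_mono_set
      · exact (integrable_exp_neg_mul_sq hα).integrableOn
      · exact Filter.Eventually.of_forall (fun x => (Real.exp_pos _).le)
      · exact Filter.Eventually.of_forall (fun x hx => hx.1)
    refine le_trans (le_of_eq ?_) (h2.trans h3)
    apply Finset.sum_congr rfl
    intro j _
    simp
  rcases N with _ | N
  · simp only [Finset.range_zero, Finset.sum_empty]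
    have := gz_pos hα
    linarith
  · rw [Finset.sum_range_succ']
    have h2 := h1 N
    simp only [Nat.cast_zero, ne_eq, OfNat.ofNat_ne_zero, not_false_eq_true, zero_pow, mul_zero,
      Real.exp_zero]
    linarith

theorem sum_gauss_ge {α : ℝ} (hα : 0 < α) :
    ∃ N₀ : ℕ, ∀ N, N₀ ≤ N → gz α / 2 - 3 / 2 ≤
      ∑ j ∈ Finset.Icc 1 N, Real.exp (-α * (j : ℝ) ^ 2) := by
  have h1 : Filter.Tendsto (fun N : ℕ => ∫ x in (0 : ℝ)..N, Real.exp (-α * x ^ 2)) Filter.atTop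
      (nhds (gz α / 2)) := by
    rw [gz, ← integral_gaussian_Ioi]
    exact intervalIntegral_tendsto_integral_Ioi 0 (integrable_exp_neg_mul_sq hα).integrableOn
      tendsto_natCast_atTop_atTop
  have h2 : ∀ᶠ N : ℕ in Filter.atTop, gz α / 2 - 1 / 2 <
      ∫ x in (0 : ℝ)..N, Real.exp (-α * x ^ 2) :=
    h1.eventually (lt_mem_nhds (by linarith))
  obtain ⟨N₀, hN₀⟩ := Filter.eventually_atTop.1 h2
  refine ⟨N₀, fun N hN => ?_⟩
  have h3 := hN₀ N hN
  have h4 := AntitoneOn.integral_le_sum (x₀ := 0) (a := N)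
      (gauss_antitone hα (Set.Icc (0 : ℝ) (0 + N)) (fun x hx => hx.1))
  rw [zero_add] at h4
  have h5 : ∑ i ∈ Finset.range N, Real.exp (-α * (0 + (i : ℝ)) ^ 2) ≤
      1 + ∑ j ∈ Finset.Icc 1 N, Real.exp (-α * (j : ℝ) ^ 2) := by
    have e1 : ∑ i ∈ Finset.range N, Real.exp (-α * (0 + (i : ℝ)) ^ 2) ≤
        ∑ i ∈ Finset.range (N + 1), Real.exp (-α * (i : ℝ) ^ 2) := by
      rw [Finset.sum_range_succ]
      simp only [zero_add]
      have := Real.exp_pos (-α * (N : ℝ) ^ 2)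
      linarith
    have e2 : ∑ i ∈ Finset.range (N + 1), Real.exp (-α * (i : ℝ) ^ 2) =
        1 + ∑ j ∈ Finset.Icc 1 N, Real.exp (-α * (j : ℝ) ^ 2) := by
      rw [Finset.range_eq_Ico, Finset.sum_eq_sum_Ico_succ_bot (by omega)]
      simp only [Nat.cast_zero, ne_eq, OfNat.ofNat_ne_zero, not_false_eq_true, zero_pow, mul_zero,
        Real.exp_zero, zero_add]
      congr 1
    linarith
  linarith

end Pool.Agent.Lib.MP_8535cc_co
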